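import Pool.Agent.Work.MP_46fa68_56.RDefs

/-!
# MP_46fa68_co: numbers of LEMMA R for `m ≥ 19` (layers `≥ 3`)
-/

set_option autoImplicit false

open Finset

namespace Pool.JM.LR

namespace N62

theorem c19 {m : ℕ} (hm : 19 ≤ m) : (19 : ℝ) ≤ m := by exact_mod_cast hm

/-- layer 3, row 1, second row of length `≥ 2` -/
theorem nr_d3 (hC : Stmt_CF) {m : ℕ} (hm : 19 ≤ m) :
    cA m 3 * TB m 3 * (((m : ℝ) - 2) * ((m : ℝ) - 1) / ((m : ℝ) - 4)) ≤ 185 / 1000 := by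
  have h19 := c19 hm
  rw [(hC m (by omega)).2.2.1]
  have e : TB m 3 = 2898 / 10000 + 51 / 50 / (m : ℝ) := by
    unfold TB
    norm_num
  rw [e]
  obtain ⟨s, hs⟩ : ∃ s : ℝ, (m : ℝ) = 19 + s := ⟨m - 19, by ring⟩
  have hs0 : 0 ≤ s := by linarith
  rw [hs]
  have h1 : (0 : ℝ) < 19 + s := by linarith
  have h2 : (0 : ℝ) < 19 + s - 4 := by linarith
  have e2 : 1 / (2 * (19 + s)) * (2898 / 10000 + 51 / 50 / (19 + s)) *
      ((19 + s - 2) * (19 + s - 1) / (19 + s - 4)) =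
      ((2898 / 10000 * (19 + s) + 51 / 50) * ((17 + s) * (18 + s))) /
        (2 * (19 + s) ^ 2 * (15 + s)) := by
    field_simp
    ring
  rw [e2, div_le_iff₀ (by positivity)]
  nlinarith [pow_nonneg hs0 2, pow_nonneg hs0 3]

theorem exp_small {x : ℝ} (h0 : 0 ≤ x) (h1 : x ≤ 1 / 17) : Real.exp (1 + x) ≤ 289 / 100 := by
  rw [Real.exp_add]
  have h2 : Real.exp 1 < 27183 / 10000 := by
    have := Real.exp_one_lt_d9
    linarith
  have h3 : Real.exp x ≤ 1 / (1 - x) := by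
    have h4 := Real.add_one_le_exp (-x)
    have h5 : 0 < 1 - x := by linarith
    rw [le_div_iff₀ h5]
    have h6 : Real.exp x * Real.exp (-x) = 1 := by
      rw [← Real.exp_add]
      simp
    nlinarith [Real.exp_pos x]
  have h7 : 1 / (1 - x) ≤ 17 / 16 := by
    rw [div_le_div_iff₀ (by linarith) (by norm_num)]
    linarith
  have h8 := Real.exp_pos x
  nlinarith [Real.exp_pos 1]

/-- layer 3, row 1, second row of length `1` (the column) -/
theorem nr_d3col (hC : Stmt_CF) {m : ℕ} (hm : 19 ≤ m) :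
    cA m 3 * TB m 3 * (((m : ℝ) - 2) / ((m : ℝ) - 3) * Real.exp (((m : ℝ) - 1) / ((m : ℝ) - 2))) ≤
      3 / 100 := by
  have h19 := c19 hm
  rw [(hC m (by omega)).2.2.1]
  have e : TB m 3 = 2898 / 10000 + 51 / 50 / (m : ℝ) := by
    unfold TB
    norm_num
  rw [e]
  have h1 : ((m : ℝ) - 1) / ((m : ℝ) - 2) = 1 + 1 / ((m : ℝ) - 2) := by
    have : (m : ℝ) - 2 ≠ 0 := by linarith
    field_simp
    ring
  have h2 : Real.exp (((m : ℝ) - 1) / ((m : ℝ) - 2)) ≤ 289 / 100 := by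
    rw [h1]
    refine exp_small (by apply div_nonneg <;> linarith) ?_
    apply one_div_le_one_div_of_le (by norm_num)
    linarith
  have h3 : ((m : ℝ) - 2) / ((m : ℝ) - 3) ≤ 17 / 16 := by
    rw [div_le_div_iff₀ (by linarith) (by norm_num)]
    linarith
  have h4 : 51 / 50 / (m : ℝ) ≤ 51 / 50 / 19 := by
    apply div_le_div_of_nonneg_left (by norm_num) (by norm_num) h19
  have h5 : 1 / (2 * (m : ℝ)) ≤ 1 / 38 := by
    apply one_div_le_one_div_of_le (by norm_num)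
    linarith
  have h6 : 0 < 51 / 50 / (m : ℝ) := by
    apply div_pos (by norm_num)
    linarith
  have h7 : ((m : ℝ) - 2) / ((m : ℝ) - 3) * Real.exp (((m : ℝ) - 1) / ((m : ℝ) - 2)) ≤
      17 / 16 * (289 / 100) :=
    mul_le_mul h3 h2 (Real.exp_pos _).le (by norm_num)
  have h8 : 1 / (2 * (m : ℝ)) * (2898 / 10000 + 51 / 50 / (m : ℝ)) ≤
      1 / 38 * (2898 / 10000 + 51 / 50 / 19) :=
    mul_le_mul h5 (by linarith) (by linarith) (by norm_num)
  calc _ ≤ (1 / 38 * (2898 / 10000 + 51 / 50 / 19)) * (17 / 16 * (289 / 100)) :=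
        mul_le_mul h8 h7 (mul_nonneg (div_nonneg (by linarith) (by linarith)) (Real.exp_pos _).le)
          (by norm_num)
    _ ≤ _ := by norm_num

theorem TB_nonneg {m p : ℕ} (hm : 19 ≤ m) : 0 ≤ TB m p := by
  have h19 := c19 hm
  unfold TB
  have h1 : (0 : ℝ) ≤ (m : ℝ) - 3 + p := by
    have : (0 : ℝ) ≤ p := Nat.cast_nonneg _
    linarith
  have h2 : (0 : ℝ) ≤ 51 / 50 / ((m : ℝ) - 3 + p) := div_nonneg (by norm_num) h1
  have h3 : (0 : ℝ) ≤ 51 / 50 / (p : ℝ) := div_nonneg (by norm_num) (Nat.cast_nonneg _)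
  split_ifs <;> linarith

theorem TB_anti {m p : ℕ} (hm : 19 ≤ m) (hp : 4 ≤ p) : TB m (p + 1) ≤ TB m p := by
  have h19 := c19 hm
  have hp4 : (4 : ℝ) ≤ p := by exact_mod_cast hp
  unfold TB
  rw [if_neg (by omega), if_neg (by omega), if_neg (by omega), if_neg (by omega),
    if_neg (by omega), if_neg (by omega), if_neg (by omega)]
  push_cast
  have h1 : 51 / 50 / ((m : ℝ) - 3 + (p + 1)) ≤ 51 / 50 / ((m : ℝ) - 3 + p) := by
    apply div_le_div_of_nonneg_left (by norm_num) (by linarith) (by linarith)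
  have h2 : 51 / 50 / ((p : ℝ) + 1) ≤ if p = 4 then 224 / 1000 else 51 / 50 / (p : ℝ) := by
    split_ifs with h
    · subst h
      norm_num
    · apply div_le_div_of_nonneg_left (by norm_num) (by linarith) (by linarith)
  linarith

/-- row 1, layers `≥ 4` -/
noncomputable def GE (m i : ℕ) : ℝ :=
  cA m i * TB m i * (((m : ℝ) - i + 1) * (4 / 3) ^ (2 * i - 3))

theorem GE_step (hC : Stmt_CF) {m i : ℕ} (hm : 19 ≤ m) (hi : 4 ≤ i) (hi2 : i + 9 ≤ m) :
    GE m (i + 1) ≤ GE m i := by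
  have h19 := c19 hm
  have h4 : (4 : ℝ) ≤ i := by exact_mod_cast hi
  have h9 : (i : ℝ) + 9 ≤ m := by exact_mod_cast hi2
  obtain ⟨_, _, _, _, _, hA, _, _, _, hpos⟩ := hC m (by omega)
  have a1 := hA i (by omega) (by omega)
  have p0 := hpos i (by omega)
  have p1 := hpos (i + 1) (by omega)
  unfold GE
  rw [show 2 * (i + 1) - 3 = (2 * i - 3) + 2 by omega, pow_add]
  push_cast
  obtain ⟨P, hP⟩ : ∃ P : ℝ, P = (4 / 3 : ℝ) ^ (2 * i - 3) := ⟨_, rfl⟩
  have hP0 : 0 < P := by rw [hP]; positivity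
  rw [← hP]
  have t1 := TB_anti hm hi
  have t0 := TB_nonneg (p := i + 1) hm
  have key : cA m (i + 1) * ((((m : ℝ) - (i + 1)) + 1) * (4 / 3) ^ 2) ≤
      cA m i * (((m : ℝ) - i) + 1) := by
    have e : cA m (i + 1) = cA m i * ((m : ℝ) - 2 + i) / (i * ((m : ℝ) - i)) := by
      rw [eq_div_iff (by apply ne_of_gt; apply mul_pos <;> linarith)]
      exact a1
    rw [e]
    have e2 : cA m i * ((m : ℝ) - 2 + i) / (i * ((m : ℝ) - i)) *
        ((((m : ℝ) - (i + 1)) + 1) * (4 / 3) ^ 2) =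
        cA m i * (16 / 9 * ((m : ℝ) - 2 + i) / i) := by
      have : (m : ℝ) - i ≠ 0 := by linarith
      have : (i : ℝ) ≠ 0 := by linarith
      field_simp
      ring
    rw [e2]
    apply mul_le_mul_of_nonneg_left _ p0.le
    rw [div_le_iff₀ (by linarith)]
    nlinarith [mul_nonneg (by linarith : (0 : ℝ) ≤ (i : ℝ) - 4) (by linarith : (0 : ℝ) ≤ (m : ℝ) - 9 - i)]
  calc cA m (i + 1) * TB m (i + 1) * (((m : ℝ) - (i + 1) + 1) * (P * (4 / 3) ^ 2))
      = (cA m (i + 1) * ((((m : ℝ) - (i + 1)) + 1) * (4 / 3) ^ 2)) * (TB m (i + 1) * P) := by ring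
    _ ≤ (cA m i * (((m : ℝ) - i) + 1)) * (TB m i * P) :=
        mul_le_mul key (mul_le_mul_of_nonneg_right t1 hP0.le) (mul_nonneg t0 hP0.le)
          (mul_nonneg p0.le (by linarith))
    _ = _ := by ring

theorem GE_four (hC : Stmt_CF) {m : ℕ} (hm : 19 ≤ m) : GE m 4 ≤ 204 / 1000 := by
  have h19 := c19 hm
  obtain ⟨_, _, h3, _, _, hA, _, _, _, _⟩ := hC m (by omega)
  have a1 := hA 3 (by omega) (by omega)
  have e : cA m 4 = ((m : ℝ) + 1) / (6 * m * ((m : ℝ) - 3)) := by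
    rw [h3] at a1
    norm_num at a1
    rw [eq_div_iff (by apply ne_of_gt; apply mul_pos <;> linarith)]
    have h0 : (m : ℝ) ≠ 0 := by linarith
    have : cA m 4 * (6 * (m : ℝ) * ((m : ℝ) - 3)) = (cA m 4 * (3 * ((m : ℝ) - 3))) * (2 * m) := by ring
    rw [this, a1]
    field_simp
    ring
  unfold GE
  rw [e]
  have e1 : TB m 4 = 224 / 1000 + 51 / 50 / ((m : ℝ) + 1) := by
    unfold TB
    norm_num
    ring
  rw [e1]
  have h3 : (0 : ℝ) < (m : ℝ) - 3 := by linarith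
  have h0 : (0 : ℝ) < m := by linarith
  have h1 : (0 : ℝ) < (m : ℝ) + 1 := by linarith
  have e2 : ((m : ℝ) + 1) / (6 * m * ((m : ℝ) - 3)) * (224 / 1000 + 51 / 50 / ((m : ℝ) + 1)) *
      (((m : ℝ) - (4 : ℕ) + 1) * (4 / 3) ^ (2 * 4 - 3)) =
      (1024 / 243) * (224 / 1000 * ((m : ℝ) + 1) + 51 / 50) / (6 * m) := by
    push_cast
    have : (m : ℝ) - 4 + 1 = m - 3 := by ring
    rw [this]
    norm_num
    field_simp
  rw [e2, div_le_iff₀ (by positivity)]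
  linarith

/-- row 1, layers `≥ 4` -/
theorem nr_e4 (hC : Stmt_CF) {m i : ℕ} (hm : 19 ≤ m) (hi : 4 ≤ i) (hi2 : i + 8 ≤ m) :
    cA m i * TB m i * (((m : ℝ) - i + 1) * (4 / 3) ^ (2 * i - 3)) ≤ 204 / 1000 := by
  have : GE m i ≤ 204 / 1000 := by
    induction i, hi using Nat.le_induction with
    | base => exact GE_four hC hm
    | succ i hi ih => exact (GE_step hC hm hi (by omega)).trans (ih (by omega))
  exact this

theorem cB5 (hC : Stmt_CF) {m : ℕ} (hm : 19 ≤ m) :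
    cB m 5 = ((m : ℝ) + 1) * (m + 2) / (24 * m * ((m : ℝ) - 3)) := by
  have h19 := c19 hm
  obtain ⟨_, _, _, _, h4, _, hB, _, _, _⟩ := hC m (by omega)
  have a1 := hB 4 (by omega) (by omega)
  rw [h4] at a1
  norm_num at a1
  have h0 : (m : ℝ) ≠ 0 := by linarith
  rw [eq_div_iff (by apply ne_of_gt; apply mul_pos <;> linarith)]
  have : cB m 5 * (24 * (m : ℝ) * ((m : ℝ) - 3)) = (cB m 5 * (4 * ((m : ℝ) + 1 - 4))) * (6 * m) := by
    ring
  rw [this, a1]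
  field_simp
  ring

theorem cB6 (hC : Stmt_CF) {m : ℕ} (hm : 19 ≤ m) :
    cB m 6 = ((m : ℝ) + 1) * (m + 2) * (m + 3) / (120 * m * ((m : ℝ) - 3) * ((m : ℝ) - 4)) := by
  have h19 := c19 hm
  obtain ⟨_, _, _, _, _, _, hB, _, _, _⟩ := hC m (by omega)
  have a1 := hB 5 (by omega) (by omega)
  rw [cB5 hC hm] at a1
  norm_num at a1
  have h0 : (m : ℝ) ≠ 0 := by linarith
  have h3 : (m : ℝ) - 3 ≠ 0 := by linarith
  rw [eq_div_iff (by apply ne_of_gt; apply mul_pos (mul_pos _ _) <;> linarith)]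
  have : cB m 6 * (120 * (m : ℝ) * ((m : ℝ) - 3) * ((m : ℝ) - 4)) =
      (cB m 6 * (5 * ((m : ℝ) + 1 - 5))) * (24 * m * ((m : ℝ) - 3)) := by
    ring
  rw [this, a1]
  field_simp
  ring

/-- `(4,5)` -/
theorem nr2_p5 (hC : Stmt_CF) {m : ℕ} (hm : 19 ≤ m) :
    cB m 5 * TB m 5 * (((m : ℝ) - 3) / ((m : ℝ) - 8)) ≤ 22 / 1000 := by
  have h19 := c19 hm
  have e1 : TB m 5 = 51 / 250 + 51 / 50 / ((m : ℝ) + 2) := by
    unfold TB
    norm_num
    ring
  rw [cB5 hC hm, e1]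
  obtain ⟨s, hs⟩ : ∃ s : ℝ, (m : ℝ) = 19 + s := ⟨m - 19, by ring⟩
  have hs0 : 0 ≤ s := by linarith
  rw [hs]
  have e2 : (19 + s + 1) * (19 + s + 2) / (24 * (19 + s) * (19 + s - 3)) *
      (51 / 250 + 51 / 50 / (19 + s + 2)) * ((19 + s - 3) / (19 + s - 8)) =
      ((20 + s) * (51 / 250 * (21 + s) + 51 / 50)) / (24 * (19 + s) * (11 + s)) := by
    have h1 : (19 : ℝ) + s ≠ 0 := by linarith
    have h2 : (19 : ℝ) + s - 3 ≠ 0 := by linarith
    have h3 : (19 : ℝ) + s - 8 ≠ 0 := by linarith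
    have h4 : (19 : ℝ) + s + 2 ≠ 0 := by linarith
    have h5 : (11 : ℝ) + s ≠ 0 := by linarith
    field_simp
    ring
  rw [e2, div_le_iff₀ (by positivity)]
  nlinarith [pow_nonneg hs0 2]

noncomputable def HE (m p : ℕ) : ℝ := cB m p * TB m p * (4 / 3) ^ (2 * p - 5)

theorem HE_step (hC : Stmt_CF) {m p : ℕ} (hm : 19 ≤ m) (hp : 5 ≤ p) (hp2 : p + 8 ≤ m) :
    HE m (p + 1) ≤ HE m p := by
  have h19 := c19 hm
  have h5 : (5 : ℝ) ≤ p := by exact_mod_cast hp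
  have h8 : (p : ℝ) + 8 ≤ m := by exact_mod_cast hp2
  obtain ⟨_, _, _, _, _, _, hB, _, hpos, _⟩ := hC m (by omega)
  have a1 := hB p (by omega) (by omega)
  have p0 := hpos p (by omega)
  unfold HE
  rw [show 2 * (p + 1) - 5 = (2 * p - 5) + 2 by omega, pow_add]
  obtain ⟨P, hP⟩ : ∃ P : ℝ, P = (4 / 3 : ℝ) ^ (2 * p - 5) := ⟨_, rfl⟩
  have hP0 : 0 < P := by rw [hP]; positivity
  rw [← hP]
  have t1 := TB_anti hm (show 4 ≤ p by omega)
  have t0 := TB_nonneg (p := p + 1) hm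
  have key : cB m (p + 1) * (4 / 3) ^ 2 ≤ cB m p := by
    have e : cB m (p + 1) = cB m p * ((m : ℝ) - 2 + p) / (p * ((m : ℝ) + 1 - p)) := by
      rw [eq_div_iff (by apply ne_of_gt; apply mul_pos <;> linarith)]
      exact a1
    rw [e]
    have e2 : cB m p * ((m : ℝ) - 2 + p) / (p * ((m : ℝ) + 1 - p)) * (4 / 3) ^ 2 =
        cB m p * ((16 / 9 * ((m : ℝ) - 2 + p)) / (p * ((m : ℝ) + 1 - p))) := by
      have : (m : ℝ) + 1 - p ≠ 0 := by linarith
      have : (p : ℝ) ≠ 0 := by linarith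
      field_simp
      ring
    rw [e2]
    refine mul_le_of_le_one_right p0.le ?_
    rw [div_le_one (by apply mul_pos <;> linarith)]
    nlinarith [mul_nonneg (by linarith : (0 : ℝ) ≤ (p : ℝ) - 5) (by linarith : (0 : ℝ) ≤ (m : ℝ) - 8 - p)]
  calc cB m (p + 1) * TB m (p + 1) * (P * (4 / 3) ^ 2)
      = (cB m (p + 1) * (4 / 3) ^ 2) * (TB m (p + 1) * P) := by ring
    _ ≤ cB m p * (TB m p * P) :=
        mul_le_mul key (mul_le_mul_of_nonneg_right t1 hP0.le) (mul_nonneg t0 hP0.le) p0.le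
    _ = _ := by ring

theorem HE_six (hC : Stmt_CF) {m : ℕ} (hm : 19 ≤ m) : HE m 6 ≤ 28 / 1000 := by
  have h19 := c19 hm
  have e1 : TB m 6 = 17 / 100 + 51 / 50 / ((m : ℝ) + 3) := by
    unfold TB
    norm_num
    ring
  unfold HE
  rw [cB6 hC hm, e1]
  obtain ⟨s, hs⟩ : ∃ s : ℝ, (m : ℝ) = 19 + s := ⟨m - 19, by ring⟩
  have hs0 : 0 ≤ s := by linarith
  rw [hs]
  have e2 : (19 + s + 1) * (19 + s + 2) * (19 + s + 3) /
      (120 * (19 + s) * (19 + s - 3) * (19 + s - 4)) *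
      (17 / 100 + 51 / 50 / (19 + s + 3)) * (4 / 3) ^ (2 * 6 - 5) =
      (16384 / 2187) * ((20 + s) * (21 + s) * (17 / 100 * (22 + s) + 51 / 50)) /
        (120 * (19 + s) * (16 + s) * (15 + s)) := by
    have h1 : (19 : ℝ) + s ≠ 0 := by linarith
    have h2 : (19 : ℝ) + s - 3 ≠ 0 := by linarith
    have h3 : (19 : ℝ) + s - 4 ≠ 0 := by linarith
    have h4 : (19 : ℝ) + s + 3 ≠ 0 := by linarith
    have h5 : (16 : ℝ) + s ≠ 0 := by linarith
    have h6 : (15 : ℝ) + s ≠ 0 := by linarith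
    norm_num
    field_simp
    ring
  rw [e2, div_le_iff₀ (by positivity)]
  nlinarith [pow_nonneg hs0 2, pow_nonneg hs0 3]

/-- row 2, `p ≥ 6` -/
theorem nr2_p6 (hC : Stmt_CF) {m p : ℕ} (hm : 19 ≤ m) (hp : 6 ≤ p) (hp2 : p + 7 ≤ m) :
    cB m p * TB m p * (4 / 3) ^ (2 * p - 5) ≤ 28 / 1000 := by
  have : HE m p ≤ 28 / 1000 := by
    induction p, hp using Nat.le_induction with
    | base => exact HE_six hC hm
    | succ i hi ih => exact (HE_step hC hm (by omega) (by omega)).trans (ih (by omega))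
  exact this

end N62

end Pool.JM.LR
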