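import Pool.Agent.Work.MP_46fa68_67.NF1

/-!
# MP_46fa68_co: block NF2 (rows `≥ 3` in layer 2)

The quantity decreases in `m`; for `m = 2 y + 1` it decreases in `y`.
-/

set_option autoImplicit false

open Finset

namespace Pool.JM.LR

namespace N62

/-- the quantity of NF2 -/
noncomputable def F2 (m y : ℕ) : ℝ :=
  51 / 25 * 2 ^ (2 * m - 3 - y) *
    (if y = 0 then 1 else (((y : ℝ) + 1) / 2 + ((m : ℝ) - 1 - 2 * y) / y) ^ y) /
    ((m.factorial : ℝ) * ((m : ℝ) - y))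

theorem F2_step (m y : ℕ) (hm : 16 ≤ m) (hy : 2 * y + 1 ≤ m) : F2 (m + 1) y ≤ F2 m y := by
  have hmR : (16 : ℝ) ≤ m := by exact_mod_cast hm
  have hyR : 2 * (y : ℝ) + 1 ≤ m := by exact_mod_cast hy
  have hy0 : (0 : ℝ) ≤ y := Nat.cast_nonneg _
  have hexp : 2 * (m + 1) - 3 - y = (2 * m - 3 - y) + 2 := by omega
  obtain ⟨Q, hQ⟩ : ∃ Q : ℝ, Q = if y = 0 then 1 else (((y : ℝ) + 1) / 2 + ((m : ℝ) - 1 - 2 * y) / y) ^ y :=
    ⟨_, rfl⟩
  obtain ⟨P, hP⟩ : ∃ P : ℝ, P = if y = 0 then 1 else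
    (((y : ℝ) + 1) / 2 + (((m + 1 : ℕ) : ℝ) - 1 - 2 * y) / y) ^ y := ⟨_, rfl⟩
  have hQ0 : 0 ≤ Q := by
    rw [hQ]
    split_ifs with h0
    · norm_num
    · apply pow_nonneg
      have : (0 : ℝ) ≤ (m : ℝ) - 1 - 2 * y := by linarith
      positivity
  have hPQ : P ≤ Q * (272 / 100) := by
    rw [hP, hQ]
    by_cases h0 : y = 0
    · simp only [h0, if_true]
      norm_num
    · simp only [h0, if_false]
      have hy1 : (1 : ℝ) ≤ y := by exact_mod_cast Nat.one_le_iff_ne_zero.mpr h0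
      have hb1 : (1 : ℝ) ≤ ((y : ℝ) + 1) / 2 + ((m : ℝ) - 1 - 2 * y) / y := by
        have : 0 ≤ ((m : ℝ) - 1 - 2 * y) / y := div_nonneg (by linarith) (by linarith)
        linarith
      have heq : ((y : ℝ) + 1) / 2 + (((m + 1 : ℕ) : ℝ) - 1 - 2 * y) / y =
          (((y : ℝ) + 1) / 2 + ((m : ℝ) - 1 - 2 * y) / y) + 1 / y := by
        push_cast
        field_simp
        ring
      rw [heq]
      refine (pow_add_le _ (1 / y) (by linarith) (by positivity) y).trans ?_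
      apply mul_le_mul_of_nonneg_left _ (by positivity)
      refine le_trans (Real.exp_le_exp.mpr ?_) exp_one_lt.le
      obtain ⟨b, hb⟩ : ∃ b : ℝ, b = ((y : ℝ) + 1) / 2 + ((m : ℝ) - 1 - 2 * y) / y := ⟨_, rfl⟩
      rw [← hb] at hb1 ⊢
      have : (y : ℝ) * (1 / y / b) = 1 / b := by
        field_simp
      rw [this, div_le_one (by linarith)]
      exact hb1
  unfold F2
  rw [hexp, pow_add, ← hP, ← hQ, Nat.factorial_succ]
  have hfac : (0 : ℝ) < (m.factorial : ℝ) := by exact_mod_cast m.factorial_pos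
  push_cast
  rw [div_le_div_iff₀ (by apply mul_pos (by positivity); linarith) (by apply mul_pos hfac; linarith)]
  obtain ⟨T, hT⟩ : ∃ T : ℝ, T = 2 ^ (2 * m - 3 - y) := ⟨_, rfl⟩
  have hTp : 0 < T := by rw [hT]; positivity
  rw [← hT]
  obtain ⟨Φ, hΦ⟩ : ∃ Φ : ℝ, Φ = (m.factorial : ℝ) := ⟨_, rfl⟩
  rw [← hΦ] at hfac ⊢
  have hmy : 0 < (m : ℝ) - y := by linarith
  have h1 : 51 / 25 * (T * 2 ^ 2) * P * (Φ * ((m : ℝ) - y)) ≤
      51 / 25 * (T * 2 ^ 2) * (Q * (272 / 100)) * (Φ * ((m : ℝ) - y)) := by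
    apply mul_le_mul_of_nonneg_right _ (mul_pos hfac hmy).le
    exact mul_le_mul_of_nonneg_left hPQ (by positivity)
  refine h1.trans ?_
  have h2 : 51 / 25 * (T * 2 ^ 2) * (Q * (272 / 100)) * (Φ * ((m : ℝ) - y)) =
      51 / 25 * T * Q * Φ * (4 * (272 / 100) * ((m : ℝ) - y)) := by ring
  have h3 : 51 / 25 * T * Q * (((m : ℝ) + 1) * Φ * ((m : ℝ) + 1 - y)) =
      51 / 25 * T * Q * Φ * (((m : ℝ) + 1) * ((m : ℝ) + 1 - y)) := by ring
  rw [h2, h3]
  apply mul_le_mul_of_nonneg_left _ (by positivity)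
  nlinarith

theorem F2_mono (m0 m y : ℕ) (hm0 : 16 ≤ m0) (hy : 2 * y + 1 ≤ m0) (h : m0 ≤ m) :
    F2 m y ≤ F2 m0 y := by
  induction m, h using Nat.le_induction with
  | base => exact le_rfl
  | succ n hn ih => exact (F2_step n y (by omega) (by omega)).trans ih

noncomputable def G2 (y : ℕ) : ℝ :=
  51 / 50 * 2 ^ (2 * y) * ((y : ℝ) + 1) ^ y / (((2 * y + 1).factorial : ℝ) * ((y : ℝ) + 1))

theorem G2_le (y : ℕ) (hy : 8 ≤ y) : G2 y ≤ 1 / 1000 := by
  induction y, hy using Nat.le_induction with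
  | base =>
    unfold G2
    norm_num [Nat.factorial]
  | succ y hy ih =>
    refine le_trans ?_ ih
    have hyR : (8 : ℝ) ≤ y := by exact_mod_cast hy
    unfold G2
    rw [show 2 * (y + 1) = 2 * y + 2 by ring, pow_add]
    have hp : (((y + 1 : ℕ) : ℝ) + 1) ^ (y + 1) ≤ ((y : ℝ) + 1) ^ y * (272 / 100) * ((y : ℝ) + 2) := by
      have e3 : (((y + 1 : ℕ) : ℝ) + 1) ^ (y + 1) = (((y : ℝ) + 1) + 1) ^ y * ((y : ℝ) + 2) := by
        push_cast
        have : (y : ℝ) + 1 + 1 = (y : ℝ) + 2 := by ring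
        rw [this]
        ring
      rw [e3]
      apply mul_le_mul_of_nonneg_right _ (by positivity)
      refine (pow_add_le ((y : ℝ) + 1) 1 (by linarith) (by norm_num) y).trans ?_
      apply mul_le_mul_of_nonneg_left _ (by positivity)
      refine le_trans (Real.exp_le_exp.mpr ?_) exp_one_lt.le
      rw [← mul_div_assoc, div_le_iff₀ (by linarith)]
      linarith
    have e5 : (2 * y + 2 + 1).factorial = (2 * y + 3) * ((2 * y + 2) * (2 * y + 1).factorial) := by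
      rw [Nat.factorial_succ, show 2 * y + 2 = 2 * y + 1 + 1 by ring, Nat.factorial_succ]
    rw [e5]
    have hfac : (0 : ℝ) < ((2 * y + 1).factorial : ℝ) := by exact_mod_cast Nat.factorial_pos _
    push_cast at hp ⊢
    obtain ⟨T, hT⟩ : ∃ T : ℝ, T = (2 : ℝ) ^ (2 * y) := ⟨_, rfl⟩
    have hTp : 0 < T := by rw [hT]; positivity
    obtain ⟨A, hA⟩ : ∃ A : ℝ, A = ((y : ℝ) + 1) ^ y := ⟨_, rfl⟩
    have hAp : 0 < A := by rw [hA]; positivity
    obtain ⟨Φ, hΦ⟩ : ∃ Φ : ℝ, Φ = ((2 * y + 1).factorial : ℝ) := ⟨_, rfl⟩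
    rw [← hΦ] at hfac
    rw [← hA] at hp
    rw [← hT, ← hA, ← hΦ]
    rw [div_le_div_iff₀ (by positivity) (by positivity)]
    have h1 : 51 / 50 * (T * 2 ^ 2) * ((y : ℝ) + 1 + 1) ^ (y + 1) * (Φ * ((y : ℝ) + 1)) ≤
        51 / 50 * (T * 2 ^ 2) * (A * (272 / 100) * ((y : ℝ) + 2)) * (Φ * ((y : ℝ) + 1)) := by
      apply mul_le_mul_of_nonneg_right _ (by positivity)
      exact mul_le_mul_of_nonneg_left hp (by positivity)
    refine h1.trans ?_
    have h2 : 51 / 50 * (T * 2 ^ 2) * (A * (272 / 100) * ((y : ℝ) + 2)) * (Φ * ((y : ℝ) + 1)) =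
        51 / 50 * T * A * Φ * (4 * (272 / 100) * ((y : ℝ) + 2) * ((y : ℝ) + 1)) := by ring
    have h3 : 51 / 50 * T * A * ((2 * (y : ℝ) + 3) * ((2 * y + 2) * Φ) * ((y : ℝ) + 1 + 1)) =
        51 / 50 * T * A * Φ * ((2 * (y : ℝ) + 3) * (2 * y + 2) * ((y : ℝ) + 2)) := by ring
    rw [h2, h3]
    apply mul_le_mul_of_nonneg_left _ (by positivity)
    have h4 : 4 * (272 / 100) * ((y : ℝ) + 1) ≤ (2 * (y : ℝ) + 3) * (2 * y + 2) := by nlinarith
    nlinarith [mul_le_mul_of_nonneg_left h4 (show (0 : ℝ) ≤ (y : ℝ) + 2 by linarith)]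

theorem F2_G2 (y : ℕ) (hy : 8 ≤ y) : F2 (2 * y + 1) y = G2 y := by
  have hyR : (8 : ℝ) ≤ y := by exact_mod_cast hy
  unfold F2 G2
  rw [if_neg (by omega)]
  have e1 : (2 : ℝ) ^ (2 * (2 * y + 1) - 3 - y) = 2 ^ (2 * y) * 2 ^ y / 2 := by
    rw [eq_div_iff (by norm_num), ← pow_succ, ← pow_add]
    congr 1
    omega
  rw [e1]
  have b0 : ((y : ℝ) + 1) / 2 + (((2 * y + 1 : ℕ) : ℝ) - 1 - 2 * y) / y = ((y : ℝ) + 1) / 2 := by
    push_cast
    have : (2 * (y : ℝ) + 1 - 1 - 2 * y) = 0 := by ring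
    rw [this]
    ring
  rw [b0, div_pow]
  have c : (((2 * y + 1 : ℕ) : ℝ) - y) = (y : ℝ) + 1 := by
    push_cast
    ring
  rw [c]
  have h2 : (2 : ℝ) ^ y ≠ 0 := by positivity
  field_simp
  ring

end N62

open N62

theorem blk_NF2 : Stmt_NF2 := by
  intro m y hm hy
  change F2 m y ≤ 1 / 1000
  by_cases h : y ≤ 7
  · refine (F2_mono 16 m y le_rfl (by omega) hm).trans ?_
    interval_cases y <;> (unfold F2; norm_num [Nat.factorial])
  · exact (F2_mono (2 * y + 1) m y (by omega) le_rfl hy).trans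
      ((F2_G2 y (by omega)).le.trans (G2_le y (by omega)))

end Pool.JM.LR
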