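import Pool.Agent.Work.MP_46fa68_67.NF1

/-!
# MP_46fa68_co: NF1 for `m ≥ 19`, and for short rows `2 y ≤ m`
-/

set_option autoImplicit false

open Finset

namespace Pool.JM.LR

namespace N62

/-- `y = 2 k + 1`, `m = 3 k + 3` -/
theorem FF_odd_step (k : ℕ) (hk : 5 ≤ k) :
    FF (3 * (k + 1) + 3) (2 * (k + 1) + 1) ≤ FF (3 * k + 3) (2 * k + 1) := by
  have hkR : (5 : ℝ) ≤ k := by exact_mod_cast hk
  have e1 : 2 * (3 * (k + 1) + 3) - 3 - (2 * (k + 1) + 1) = (2 * (3 * k + 3) - 3 - (2 * k + 1)) + 4 := by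
    omega
  unfold FF
  rw [e1, if_neg (by omega), if_neg (by omega)]
  have b1 : (((2 * (k + 1) + 1 : ℕ) : ℝ) + 1) / 2 +
      (2 * ((3 * (k + 1) + 3 : ℕ) : ℝ) - 3 - 3 * ((2 * (k + 1) + 1 : ℕ) : ℝ)) /
      ((2 * (k + 1) + 1 : ℕ) : ℝ) = ((k : ℝ) + 1) + 1 := by
    push_cast
    have : (2 * (3 * ((k : ℝ) + 1) + 3) - 3 - 3 * (2 * ((k : ℝ) + 1) + 1)) = 0 := by ring
    rw [this]
    ring
  have b0 : (((2 * k + 1 : ℕ) : ℝ) + 1) / 2 +
      (2 * ((3 * k + 3 : ℕ) : ℝ) - 3 - 3 * ((2 * k + 1 : ℕ) : ℝ)) /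
      ((2 * k + 1 : ℕ) : ℝ) = (k : ℝ) + 1 := by
    push_cast
    have : (2 * (3 * (k : ℝ) + 3) - 3 - 3 * (2 * (k : ℝ) + 1)) = 0 := by ring
    rw [this]
    ring
  rw [b1, b0]
  set T := (2 : ℝ) ^ (2 * (3 * k + 3) - 3 - (2 * k + 1)) with hT
  have hTp : 0 < T := by positivity
  have hp : ((k : ℝ) + 1 + 1) ^ (2 * (k + 1) + 1) ≤
      ((k : ℝ) + 1) ^ (2 * k + 1) * (74 / 10) * ((k : ℝ) + 2) ^ 3 / ((k : ℝ) + 1) := by
    have e3 : ((k : ℝ) + 1 + 1) ^ (2 * (k + 1) + 1) = ((k : ℝ) + 1 + 1) ^ (2 * k) * ((k : ℝ) + 2) ^ 3 := by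
      ring
    rw [e3]
    have e4 : ((k : ℝ) + 1) ^ (2 * k + 1) * (74 / 10) * ((k : ℝ) + 2) ^ 3 / ((k : ℝ) + 1) =
        (((k : ℝ) + 1) ^ (2 * k) * (74 / 10)) * ((k : ℝ) + 2) ^ 3 := by
      field_simp
      ring
    rw [e4]
    apply mul_le_mul_of_nonneg_right _ (by positivity)
    refine (pow_add_le ((k : ℝ) + 1) 1 (by linarith) (by norm_num) (2 * k)).trans ?_
    apply mul_le_mul_of_nonneg_left _ (by positivity)
    refine le_trans (Real.exp_le_exp.mpr ?_) exp_two_lt.le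
    push_cast
    rw [← mul_div_assoc, div_le_iff₀ (by linarith)]
    linarith
  set A := ((k : ℝ) + 1) ^ (2 * k + 1) with hA
  have hAp : 0 < A := by positivity
  have e5 : (3 * (k + 1) + 3).factorial =
      (3 * k + 6) * ((3 * k + 5) * ((3 * k + 4) * (3 * k + 3).factorial)) := by
    have : 3 * (k + 1) + 3 = 3 * k + 3 + 1 + 1 + 1 := by ring
    rw [this, Nat.factorial_succ, Nat.factorial_succ, Nat.factorial_succ]
  have hfac : (0 : ℝ) < ((3 * k + 3).factorial : ℝ) := by exact_mod_cast Nat.factorial_pos _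
  rw [e5, pow_add]
  push_cast
  rw [div_le_div_iff₀ (by positivity) (by positivity)]
  set Φ := ((3 * k + 3).factorial : ℝ) with hΦ
  have h1 : 51 / 25 * (T * 2 ^ 4) * ((k : ℝ) + 1 + 1) ^ (2 * (k + 1) + 1) * ((3 * k + 3) * Φ) ≤
      51 / 25 * (T * 2 ^ 4) * (A * (74 / 10) * ((k : ℝ) + 2) ^ 3 / ((k : ℝ) + 1)) *
      ((3 * k + 3) * Φ) := by
    apply mul_le_mul_of_nonneg_right _ (by positivity)
    exact mul_le_mul_of_nonneg_left hp (by positivity)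
  refine h1.trans ?_
  have h2 : 51 / 25 * (T * 2 ^ 4) * (A * (74 / 10) * ((k : ℝ) + 2) ^ 3 / ((k : ℝ) + 1)) *
      ((3 * k + 3) * Φ) = 51 / 25 * T * A * Φ * (16 * (74 / 10) * 3 * ((k : ℝ) + 2) ^ 3) := by
    field_simp
    ring
  rw [h2]
  have h3 : 51 / 25 * T * A * ((3 * ((k : ℝ) + 1) + 3) * ((3 * k + 6) * ((3 * k + 5) *
      ((3 * k + 4) * Φ)))) =
      51 / 25 * T * A * Φ * (9 * ((k : ℝ) + 2) ^ 2 * ((3 * k + 5) * (3 * k + 4))) := by
    ring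
  rw [h3]
  apply mul_le_mul_of_nonneg_left _ (by positivity)
  have h4 : 16 * (74 / 10) * 3 * ((k : ℝ) + 2) ≤ 9 * ((3 * k + 5) * (3 * k + 4)) := by nlinarith
  have h5 : 0 ≤ ((k : ℝ) + 2) ^ 2 := by positivity
  nlinarith [mul_le_mul_of_nonneg_left h4 h5]

theorem FF_odd19 (k : ℕ) (hk : 6 ≤ k) : FF (3 * k + 3) (2 * k + 1) ≤ 124 / 10000 := by
  induction k, hk using Nat.le_induction with
  | base =>
    unfold FF
    norm_num [Nat.factorial]
  | succ k hk ih => exact (FF_odd_step k (by omega)).trans ih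

theorem HH_step (k : ℕ) (hk : 5 ≤ k) : HH (k + 1) ≤ HH k := by
  have hkR : (5 : ℝ) ≤ k := by exact_mod_cast hk
  unfold HH
  have e1 : 4 * (k + 1) + 1 = (4 * k + 1) + 4 := by ring
  rw [e1, pow_add _ (4 * k + 1) 4]
  set T := (2 : ℝ) ^ (4 * k + 1) with hT
  have hTp : 0 < T := by positivity
  have hp : (((k + 1 : ℕ) : ℝ) + 3 / 5) ^ (2 * (k + 1)) ≤
      ((k : ℝ) + 3 / 5) ^ (2 * k) * (74 / 10) * ((k : ℝ) + 8 / 5) ^ 2 := by
    have e3 : (((k + 1 : ℕ) : ℝ) + 3 / 5) ^ (2 * (k + 1)) =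
        (((k : ℝ) + 3 / 5) + 1) ^ (2 * k) * ((k : ℝ) + 8 / 5) ^ 2 := by
      push_cast
      have : (k : ℝ) + 1 + 3 / 5 = (k : ℝ) + 8 / 5 := by ring
      rw [this]
      have : (k : ℝ) + 3 / 5 + 1 = (k : ℝ) + 8 / 5 := by ring
      rw [this]
      ring
    rw [e3]
    apply mul_le_mul_of_nonneg_right _ (by positivity)
    refine (pow_add_le ((k : ℝ) + 3 / 5) 1 (by linarith) (by norm_num) (2 * k)).trans ?_
    apply mul_le_mul_of_nonneg_left _ (by positivity)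
    refine le_trans (Real.exp_le_exp.mpr ?_) exp_two_lt.le
    push_cast
    rw [← mul_div_assoc, div_le_iff₀ (by linarith)]
    linarith
  set A := ((k : ℝ) + 3 / 5) ^ (2 * k) with hA
  have hAp : 0 < A := by positivity
  have e5 : (3 * (k + 1) + 2).factorial =
      (3 * k + 5) * ((3 * k + 4) * ((3 * k + 3) * (3 * k + 2).factorial)) := by
    have : 3 * (k + 1) + 2 = 3 * k + 2 + 1 + 1 + 1 := by ring
    rw [this, Nat.factorial_succ, Nat.factorial_succ, Nat.factorial_succ]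
  have hfac : (0 : ℝ) < ((3 * k + 2).factorial : ℝ) := by exact_mod_cast Nat.factorial_pos _
  rw [e5]
  push_cast at hp ⊢
  rw [div_le_div_iff₀ (by positivity) (by positivity)]
  set Φ := ((3 * k + 2).factorial : ℝ) with hΦ
  have h1 : 51 / 25 * (T * 2 ^ 4) * ((k : ℝ) + 1 + 3 / 5) ^ (2 * (k + 1)) * ((3 * k + 2) * Φ) ≤
      51 / 25 * (T * 2 ^ 4) * (A * (74 / 10) * ((k : ℝ) + 8 / 5) ^ 2) * ((3 * k + 2) * Φ) := by
    apply mul_le_mul_of_nonneg_right _ (by positivity)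
    exact mul_le_mul_of_nonneg_left hp (by positivity)
  refine h1.trans ?_
  have h2 : 51 / 25 * (T * 2 ^ 4) * (A * (74 / 10) * ((k : ℝ) + 8 / 5) ^ 2) * ((3 * k + 2) * Φ) =
      51 / 25 * T * A * Φ * (16 * (74 / 10) * ((k : ℝ) + 8 / 5) ^ 2 * (3 * k + 2)) := by
    ring
  rw [h2]
  have h3 : 51 / 25 * T * A * ((3 * ((k : ℝ) + 1) + 2) * ((3 * k + 5) * ((3 * k + 4) *
      ((3 * k + 3) * Φ)))) =
      51 / 25 * T * A * Φ * ((3 * (k : ℝ) + 5) ^ 2 * ((3 * k + 4) * (3 * k + 3))) := by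
    ring
  rw [h3]
  apply mul_le_mul_of_nonneg_left _ (by positivity)
  have h4 : 16 * (74 / 10) * (3 * (k : ℝ) + 2) ≤ 9 * ((3 * k + 4) * (3 * k + 3)) := by nlinarith
  have h5 : 9 * ((k : ℝ) + 8 / 5) ^ 2 ≤ (3 * (k : ℝ) + 5) ^ 2 := by nlinarith
  have h6 : 0 ≤ ((k : ℝ) + 8 / 5) ^ 2 := by positivity
  have h7 : 0 ≤ (3 * (k : ℝ) + 4) * (3 * k + 3) := by positivity
  nlinarith [mul_le_mul_of_nonneg_left h4 h6, mul_le_mul_of_nonneg_right h5 h7]

theorem HH19 (k : ℕ) (hk : 6 ≤ k) : HH k ≤ 97 / 10000 := by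
  induction k, hk using Nat.le_induction with
  | base =>
    unfold HH
    norm_num [Nat.factorial]
  | succ k hk ih => exact (HH_step k (by omega)).trans ih

theorem FF_even19 (k : ℕ) (hk : 6 ≤ k) : FF (3 * k + 2) (2 * k) ≤ 97 / 10000 := by
  refine le_trans ?_ (HH19 k hk)
  have hkR : (6 : ℝ) ≤ k := by exact_mod_cast hk
  unfold FF HH
  have e1 : 2 * (3 * k + 2) - 3 - 2 * k = 4 * k + 1 := by omega
  rw [e1, if_neg (by omega)]
  have hfac : (0 : ℝ) < ((3 * k + 2).factorial : ℝ) := by exact_mod_cast Nat.factorial_pos _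
  push_cast
  apply div_le_div_of_nonneg_right _ (by positivity)
  apply mul_le_mul_of_nonneg_left _ (by positivity)
  have b0 : (2 * (k : ℝ) + 1) / 2 + (2 * (3 * (k : ℝ) + 2) - 3 - 3 * (2 * (k : ℝ))) / (2 * k) =
      (k : ℝ) + 1 / 2 + 1 / (2 * k) := by
    have : (2 * (3 * (k : ℝ) + 2) - 3 - 3 * (2 * (k : ℝ))) = 1 := by ring
    rw [this]
    ring
  rw [b0]
  apply pow_le_pow_left₀ (by positivity)
  have : 1 / (2 * (k : ℝ)) ≤ 1 / 10 := by
    apply one_div_le_one_div_of_le (by norm_num)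
    linarith
  linarith

/-- NF1 for `m ≥ 19` -/
theorem nf1_19 {m y : ℕ} (hm : 19 ≤ m) (hy : 3 * y + 3 ≤ 2 * m) : FF m y ≤ 124 / 10000 := by
  by_cases h : y ≤ 11
  · refine (FF_mono 19 m y (by norm_num) (by omega) hm).trans ?_
    interval_cases y <;> (unfold FF; norm_num [Nat.factorial])
  · rcases Nat.even_or_odd' y with ⟨k, rfl | rfl⟩
    · exact ((FF_mono (3 * k + 2) m (2 * k) (by omega) (by omega) (by omega)).trans
        (FF_even19 k (by omega))).trans (by norm_num)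
    · exact (FF_mono (3 * k + 3) m (2 * k + 1) (by omega) (by omega) (by omega)).trans
        (FF_odd19 k (by omega))

noncomputable def GG (y : ℕ) : ℝ :=
  51 / 25 * 2 ^ (2 * y) * ((y : ℝ) + 3) ^ y / (8 * (2 * y * ((2 * y).factorial : ℝ)))

theorem GG_step (y : ℕ) (hy : 11 ≤ y) : GG (y + 1) ≤ GG y := by
  have hyR : (11 : ℝ) ≤ y := by exact_mod_cast hy
  unfold GG
  rw [show 2 * (y + 1) = 2 * y + 2 by ring, pow_add]
  have hp : (((y + 1 : ℕ) : ℝ) + 3) ^ (y + 1) ≤ ((y : ℝ) + 3) ^ y * (272 / 100) * ((y : ℝ) + 4) := by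
    have e3 : (((y + 1 : ℕ) : ℝ) + 3) ^ (y + 1) = (((y : ℝ) + 3) + 1) ^ y * ((y : ℝ) + 4) := by
      push_cast
      have : (y : ℝ) + 1 + 3 = (y : ℝ) + 4 := by ring
      rw [this]
      have : (y : ℝ) + 3 + 1 = (y : ℝ) + 4 := by ring
      rw [this]
      ring
    rw [e3]
    apply mul_le_mul_of_nonneg_right _ (by positivity)
    refine (pow_add_le ((y : ℝ) + 3) 1 (by linarith) (by norm_num) y).trans ?_
    apply mul_le_mul_of_nonneg_left _ (by positivity)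
    refine le_trans (Real.exp_le_exp.mpr ?_) exp_one_lt.le
    rw [← mul_div_assoc, div_le_iff₀ (by linarith)]
    linarith
  set T := (2 : ℝ) ^ (2 * y) with hT
  have hTp : 0 < T := by positivity
  set A := ((y : ℝ) + 3) ^ y with hA
  have hAp : 0 < A := by positivity
  have e5 : (2 * y + 2).factorial = (2 * y + 2) * ((2 * y + 1) * (2 * y).factorial) := by
    rw [show 2 * y + 2 = 2 * y + 1 + 1 by ring, Nat.factorial_succ, Nat.factorial_succ]
  have hfac : (0 : ℝ) < ((2 * y).factorial : ℝ) := by exact_mod_cast Nat.factorial_pos _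
  rw [e5]
  push_cast at hp ⊢
  rw [div_le_div_iff₀ (by positivity) (by positivity)]
  set Φ := ((2 * y).factorial : ℝ) with hΦ
  have h1 : 51 / 25 * (T * 2 ^ 2) * ((y : ℝ) + 1 + 3) ^ (y + 1) * (8 * (2 * y * Φ)) ≤
      51 / 25 * (T * 2 ^ 2) * (A * (272 / 100) * ((y : ℝ) + 4)) * (8 * (2 * y * Φ)) := by
    apply mul_le_mul_of_nonneg_right _ (by positivity)
    exact mul_le_mul_of_nonneg_left hp (by positivity)
  refine h1.trans ?_
  have h2 : 51 / 25 * (T * 2 ^ 2) * (A * (272 / 100) * ((y : ℝ) + 4)) * (8 * (2 * y * Φ)) =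
      51 / 25 * T * A * Φ * 8 * (4 * (272 / 100) * (y + 4) * (2 * y)) := by ring
  rw [h2]
  have h3 : 51 / 25 * T * A * (8 * (2 * ((y : ℝ) + 1) * ((2 * y + 2) * ((2 * y + 1) * Φ)))) =
      51 / 25 * T * A * Φ * 8 * (2 * ((y : ℝ) + 1) * ((2 * y + 2) * (2 * y + 1))) := by ring
  rw [h3]
  apply mul_le_mul_of_nonneg_left _ (by positivity)
  have h4 : 4 * (272 / 100) * ((y : ℝ) + 4) ≤ (2 * y + 2) * (2 * y + 1) := by nlinarith
  have h5 : (2 * (y : ℝ)) ≤ 2 * ((y : ℝ) + 1) := by linarith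
  calc 4 * (272 / 100) * ((y : ℝ) + 4) * (2 * y) ≤ ((2 * y + 2) * (2 * y + 1)) * (2 * ((y : ℝ) + 1)) :=
        mul_le_mul h4 h5 (by positivity) (by positivity)
    _ = _ := by ring

theorem GG11 (y : ℕ) (hy : 11 ≤ y) : GG y ≤ 6 / 10000 := by
  induction y, hy using Nat.le_induction with
  | base =>
    unfold GG
    norm_num [Nat.factorial]
  | succ y hy ih => exact (GG_step y hy).trans ih

theorem FF_GG (y : ℕ) (hy : 11 ≤ y) : FF (2 * y) y ≤ GG y := by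
  have hyR : (11 : ℝ) ≤ y := by exact_mod_cast hy
  unfold FF GG
  rw [if_neg (by omega)]
  have hfac : (0 : ℝ) < ((2 * y).factorial : ℝ) := by exact_mod_cast Nat.factorial_pos _
  have e1 : (2 : ℝ) ^ (2 * (2 * y) - 3 - y) = 2 ^ (2 * y) * 2 ^ y / 8 := by
    rw [eq_div_iff (by norm_num), show (8 : ℝ) = 2 ^ 3 by norm_num, ← pow_add, ← pow_add]
    congr 1
    omega
  rw [e1]
  have hb : ((y : ℝ) + 1) / 2 + (2 * ((2 * y : ℕ) : ℝ) - 3 - 3 * y) / y ≤ ((y : ℝ) + 3) / 2 := by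
    push_cast
    have : (2 * (2 * (y : ℝ)) - 3 - 3 * y) / y ≤ 1 := by
      rw [div_le_one (by linarith)]
      linarith
    linarith
  have hb0 : 0 ≤ ((y : ℝ) + 1) / 2 + (2 * ((2 * y : ℕ) : ℝ) - 3 - 3 * y) / y := by
    push_cast
    have : 0 ≤ (2 * (2 * (y : ℝ)) - 3 - 3 * y) / y := by
      apply div_nonneg <;> linarith
    linarith
  have h1 := pow_le_pow_left₀ hb0 hb y
  have h2 : (((y : ℝ) + 3) / 2) ^ y * 2 ^ y = ((y : ℝ) + 3) ^ y := by
    rw [← mul_pow]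
    congr 1
    ring
  rw [div_le_div_iff₀ (by push_cast; positivity) (by positivity)]
  push_cast at h1 ⊢
  obtain ⟨X, hX⟩ : ∃ X : ℝ, X = (((y : ℝ) + 1) / 2 + (2 * (2 * y) - 3 - 3 * y) / y) ^ y := ⟨_, rfl⟩
  rw [← hX] at h1 ⊢
  have h3 : X * 2 ^ y ≤ ((y : ℝ) + 3) ^ y := by
    rw [← h2]
    exact mul_le_mul_of_nonneg_right h1 (by positivity)
  have h4 : 51 / 25 * ((2 : ℝ) ^ (2 * y) * 2 ^ y / 8) * X * (8 * (2 * y * ((2 * y).factorial : ℝ))) =
      51 / 25 * (2 : ℝ) ^ (2 * y) * (X * 2 ^ y) * (2 * y * ((2 * y).factorial : ℝ)) := by ring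
  rw [h4]
  apply mul_le_mul_of_nonneg_right _ (by positivity)
  exact mul_le_mul_of_nonneg_left h3 (by positivity)

/-- NF1 for `m ≥ 19`, `2 y ≤ m` -/
theorem nf1_19h {m y : ℕ} (hm : 19 ≤ m) (hy : 2 * y ≤ m) : FF m y ≤ 6 / 10000 := by
  by_cases h : y ≤ 9
  · refine (FF_mono 19 m y (by norm_num) (by omega) hm).trans ?_
    interval_cases y <;> (unfold FF; norm_num [Nat.factorial])
  · by_cases h10 : y = 10
    · subst h10
      refine (FF_mono 20 m 10 (by norm_num) (by omega) (by omega)).trans ?_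
      unfold FF
      norm_num [Nat.factorial]
    · exact ((FF_mono (2 * y) m y (by omega) (by omega) hy).trans (FF_GG y (by omega))).trans
        (GG11 y (by omega))

end N62

end Pool.JM.LR
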