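import Mathlib

/-!
# MP_46fa68_co: the far families (FC1), (FC2), (FC3)

`fcJ J m z = C(2m-4+J-z, m-3) * ((z+1)/2 + (2m-3)/z - J)^z`, compared with `m!`.
Kernel check for `16 ≤ m ≤ 63`, crude estimate for `m ≥ 64`.
-/

set_option autoImplicit false

open Finset

namespace Pool.JM

/-- the far family with `J` -/
noncomputable def fcJ (J m z : ℕ) : ℝ :=
  ((2 * m + J - 4 - z).choose (m - 3) : ℝ) *
    (((z : ℝ) + 1) / 2 + (2 * (m : ℝ) - 3) / z - J) ^ z

/-- the kernel-checked form -/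
def fcChk (J m z num den : ℕ) : Bool :=
  (z * (z + 1) + 2 * (2 * m - 3) - 2 * J * z) ^ z * (2 * m + J - 4 - z).factorial * den ≤
    num * (2 * z) ^ z * m.factorial * (m - 3).factorial * (m + J - 1 - z).factorial

theorem fc_of_chk {J m z num den : ℕ} (hm : 16 ≤ m) (hJ : 1 ≤ J) (hz : 1 ≤ z) (hzm : J * z + 3 ≤ 2 * m)
    (hzm' : z ≤ m) (hd : 0 < den) (h : fcChk J m z num den = true) :
    fcJ J m z ≤ (num : ℝ) / den * (m.factorial : ℝ) := by
  have h1 := of_decide_eq_true h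
  have hz0 : (0 : ℝ) < z := by exact_mod_cast hz
  have hle : m - 3 ≤ 2 * m + J - 4 - z := by omega
  have hb : (((z : ℝ) + 1) / 2 + (2 * (m : ℝ) - 3) / z - J) =
      ((z * (z + 1) + 2 * (2 * m - 3) - 2 * J * z : ℕ) : ℝ) / ((2 * z : ℕ) : ℝ) := by
    rw [Nat.cast_sub (by nlinarith [Nat.sub_add_cancel (show 3 ≤ 2 * m by omega)]), Nat.cast_add,
      Nat.cast_mul 2 (2 * m - 3), Nat.cast_sub (by omega)]
    push_cast
    field_simp
  have hc : ((2 * m + J - 4 - z).choose (m - 3) : ℝ) =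
      ((2 * m + J - 4 - z).factorial : ℝ) / (((m - 3).factorial : ℝ) * ((m + J - 1 - z).factorial : ℝ)) := by
    rw [Nat.cast_choose ℝ hle, show 2 * m + J - 4 - z - (m - 3) = m + J - 1 - z by omega]
  unfold fcJ
  rw [hb, hc, div_pow]
  have p1 : (0 : ℝ) < ((m - 3).factorial : ℝ) := by exact_mod_cast Nat.factorial_pos _
  have p2 : (0 : ℝ) < ((m + J - 1 - z).factorial : ℝ) := by exact_mod_cast Nat.factorial_pos _
  have p3 : (0 : ℝ) < ((2 * z : ℕ) : ℝ) ^ z := by positivity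
  have p4 : (0 : ℝ) < (den : ℝ) := by exact_mod_cast hd
  have h2 : ((z * (z + 1) + 2 * (2 * m - 3) - 2 * J * z : ℕ) : ℝ) ^ z *
      ((2 * m + J - 4 - z).factorial : ℝ) * (den : ℝ) ≤
      num * ((2 * z : ℕ) : ℝ) ^ z * (m.factorial : ℝ) * ((m - 3).factorial : ℝ) *
        ((m + J - 1 - z).factorial : ℝ) := by exact_mod_cast h1
  rw [div_mul_div_comm, div_mul_eq_mul_div, div_le_div_iff₀ (by positivity) p4]
  nlinarith [h2]

/-- all checks in a range -/
def fcAll (J lo n num den : ℕ) (zmax : ℕ → ℕ) : Bool :=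
  (List.range n).all fun k => (List.range (zmax (lo + k))).all fun j => fcChk J (lo + k) (j + 1) num den

theorem fcAll_spec {J lo n num den : ℕ} {zmax : ℕ → ℕ} (h : fcAll J lo n num den zmax = true)
    {m z : ℕ} (h1 : lo ≤ m) (h2 : m < lo + n) (h3 : 1 ≤ z) (h4 : z ≤ zmax m) :
    fcChk J m z num den = true := by
  unfold fcAll at h
  rw [List.all_eq_true] at h
  have h5 := h (m - lo) (List.mem_range.2 (by omega))
  rw [List.all_eq_true] at h5
  rw [show lo + (m - lo) = m by omega] at h5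
  have h6 := h5 (z - 1) (List.mem_range.2 (by omega))
  rwa [show z - 1 + 1 = z by omega] at h6

theorem chk1 : fcAll 1 16 48 1 15 (fun m => m / 2) = true := by decide +kernel
theorem chk2 : fcAll 2 16 48 4 25 (fun m => (2 * m - 3) / 3) = true := by decide +kernel
theorem chk3 : fcAll 3 16 48 2 25 (fun m => (2 * m - 3) / 3) = true := by decide +kernel
theorem chk3a : fcAll 3 16 48 3 100 (fun m => m / 2) = true := by decide +kernel
theorem chk3b : fcAll 3 16 48 23 2000 (fun m => (m - 1) / 2) = true := by decide +kernel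

/-! ### the crude estimate for `m ≥ 64` -/

theorem fact_third (m : ℕ) : ((m : ℝ) / 3) ^ m ≤ (m.factorial : ℝ) := by
  have h := Real.pow_div_factorial_le_exp (x := (m : ℝ)) (Nat.cast_nonneg m) m
  have hf : (0 : ℝ) < (m.factorial : ℝ) := by exact_mod_cast m.factorial_pos
  rw [div_le_iff₀ hf] at h
  have h2 : Real.exp m ≤ 3 ^ m := by
    have h3 : Real.exp (m : ℝ) = Real.exp 1 ^ m := by
      rw [← Real.exp_nat_mul, mul_one]
    rw [h3]
    exact pow_le_pow_left₀ (Real.exp_pos _).le (by linarith [Real.exp_one_lt_d9]) m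
  rw [div_pow, div_le_iff₀ (by positivity)]
  calc (m : ℝ) ^ m ≤ Real.exp m * (m.factorial : ℝ) := h
    _ ≤ 3 ^ m * (m.factorial : ℝ) := mul_le_mul_of_nonneg_right h2 hf.le
    _ = (m.factorial : ℝ) * 3 ^ m := mul_comm _ _

theorem cube_le_two_pow {m : ℕ} (hm : 10 ≤ m) : m ^ 3 ≤ 2 ^ m := by
  induction m, hm using Nat.le_induction with
  | base => norm_num
  | succ n hn ih =>
    have h1 : (n + 1) ^ 3 ≤ 2 * n ^ 3 := by nlinarith [mul_le_mul hn hn (by norm_num) (by omega)]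
    calc (n + 1) ^ 3 ≤ 2 * n ^ 3 := h1
      _ ≤ 2 * 2 ^ n := by omega
      _ = 2 ^ (n + 1) := by ring

theorem b_nonneg {J m z : ℕ} (hz : 1 ≤ z) (hzm : J * z + 3 ≤ 2 * m) :
    0 ≤ (((z : ℝ) + 1) / 2 + (2 * (m : ℝ) - 3) / z - J) := by
  have hz0 : (0 : ℝ) < z := by exact_mod_cast hz
  have h1 : (J : ℝ) ≤ (2 * (m : ℝ) - 3) / z := by
    rw [le_div_iff₀ hz0]
    have : ((J * z + 3 : ℕ) : ℝ) ≤ ((2 * m : ℕ) : ℝ) := by exact_mod_cast hzm
    push_cast at this
    linarith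
  linarith

theorem fc_le_two {J m z : ℕ} (hm : 16 ≤ m) (hJ3 : J ≤ 3) (hz : 1 ≤ z) (hzm : J * z + 3 ≤ 2 * m)
    (hzm' : z ≤ m) {β : ℝ} (hβ : (((z : ℝ) + 1) / 2 + (2 * (m : ℝ) - 3) / z - J) / 2 ≤ β) :
    fcJ J m z ≤ 2 ^ (2 * m - 1) * β ^ z := by
  have hb := b_nonneg hz hzm
  unfold fcJ
  set b := (((z : ℝ) + 1) / 2 + (2 * (m : ℝ) - 3) / z - J) with hbdef
  have h1 : ((2 * m + J - 4 - z).choose (m - 3) : ℝ) ≤ 2 ^ (2 * m - 1 - z) := by
    have h2 : (2 * m + J - 4 - z).choose (m - 3) ≤ 2 ^ (2 * m - 1 - z) :=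
      (Nat.choose_le_two_pow _ _).trans (Nat.pow_le_pow_right (by norm_num) (by omega))
    exact_mod_cast h2
  have h3 : b ^ z = 2 ^ z * (b / 2) ^ z := by
    rw [← mul_pow]
    congr 1
    ring
  calc ((2 * m + J - 4 - z).choose (m - 3) : ℝ) * b ^ z
      ≤ 2 ^ (2 * m - 1 - z) * b ^ z := mul_le_mul_of_nonneg_right h1 (by positivity)
    _ = 2 ^ (2 * m - 1) * (b / 2) ^ z := by
        rw [h3, ← mul_assoc, ← pow_add, show 2 * m - 1 - z + z = 2 * m - 1 by omega]
    _ ≤ 2 ^ (2 * m - 1) * β ^ z :=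
        mul_le_mul_of_nonneg_left (pow_le_pow_left₀ (by positivity) hβ z) (by positivity)

/-- tail for short rows -/
theorem fc_tailA {J m z : ℕ} (hm : 64 ≤ m) (hJ : 1 ≤ J) (hJ3 : J ≤ 3) (hz : 1 ≤ z) (hz2 : 2 * z ≤ m) :
    fcJ J m z ≤ 1 / 10000 * (m.factorial : ℝ) := by
  have hm' : (64 : ℝ) ≤ m := by exact_mod_cast hm
  have hz0 : (1 : ℝ) ≤ z := by exact_mod_cast hz
  have hJ' : (1 : ℝ) ≤ J := by exact_mod_cast hJ
  have hz2' : 2 * (z : ℝ) ≤ m := by exact_mod_cast hz2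
  have hzm : J * z + 3 ≤ 2 * m := by nlinarith
  have hfac := fact_third m
  by_cases hz4 : 4 ≤ z
  · have hz4' : (4 : ℝ) ≤ z := by exact_mod_cast hz4
    have hβ : (((z : ℝ) + 1) / 2 + (2 * (m : ℝ) - 3) / z - J) / 2 ≤ 26 / 100 * m := by
      have h1 : (2 * (m : ℝ) - 3) / z ≤ 52 / 100 * m - ((z : ℝ) - 1) / 2 := by
        rw [div_le_iff₀ (by linarith)]
        nlinarith [mul_nonneg (sub_nonneg.2 hz4') (sub_nonneg.2 hz2')]
      linarith
    have h2 := fc_le_two (by omega) hJ3 hz hzm (by omega) hβ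
    have hnn : 0 ≤ fcJ J m z := by
      unfold fcJ
      have := b_nonneg hz hzm
      positivity
    have h3 : fcJ J m z ^ 2 ≤ (1 / 10000 * (m.factorial : ℝ)) ^ 2 := by
      calc fcJ J m z ^ 2 ≤ (2 ^ (2 * m - 1) * (26 / 100 * (m : ℝ)) ^ z) ^ 2 :=
            pow_le_pow_left₀ hnn h2 2
        _ = (2 ^ (2 * m - 1)) ^ 2 * (26 / 100 * (m : ℝ)) ^ (2 * z) := by
            rw [mul_pow, ← pow_mul (26 / 100 * (m : ℝ)), mul_comm z 2]
        _ ≤ (2 ^ (2 * m)) ^ 2 * (26 / 100 * (m : ℝ)) ^ m := by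
            refine mul_le_mul ?_ ?_ (by positivity) (by positivity)
            · exact pow_le_pow_left₀ (by positivity) (pow_le_pow_right₀ (by norm_num) (by omega)) 2
            · exact pow_le_pow_right₀ (by linarith) hz2
        _ = (16 * (26 / 100 * (m : ℝ))) ^ m := by
            have e1 : ((2 : ℝ) ^ (2 * m)) ^ 2 = 16 ^ m := by
              rw [← pow_mul, show 2 * m * 2 = 4 * m by ring, pow_mul]
              norm_num
            rw [e1, ← mul_pow]
        _ ≤ (59 / 100 * (((m : ℝ) / 3) ^ 2)) ^ m := by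
            refine pow_le_pow_left₀ (by positivity) ?_ m
            nlinarith
        _ = (59 / 100) ^ m * (((m : ℝ) / 3) ^ m) ^ 2 := by
            rw [mul_pow, ← pow_mul, ← pow_mul, mul_comm 2 m]
        _ ≤ (1 / 10000) ^ 2 * ((m.factorial : ℝ)) ^ 2 := by
            refine mul_le_mul ?_ (pow_le_pow_left₀ (by positivity) hfac 2) (by positivity)
              (by positivity)
            calc ((59 : ℝ) / 100) ^ m ≤ (59 / 100) ^ 64 :=
                  pow_le_pow_of_le_one (by norm_num) (by norm_num) hm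
              _ ≤ (1 / 10000) ^ 2 := by norm_num
        _ = (1 / 10000 * (m.factorial : ℝ)) ^ 2 := by rw [mul_pow]
    exact le_of_sq_le_sq h3 (by positivity)
  · have hz3 : z ≤ 3 := by omega
    have hz3' : (z : ℝ) ≤ 3 := by exact_mod_cast hz3
    have hβ : (((z : ℝ) + 1) / 2 + (2 * (m : ℝ) - 3) / z - J) / 2 ≤ m := by
      have h1 : (2 * (m : ℝ) - 3) / z ≤ 2 * (m : ℝ) - 3 := div_le_self (by linarith) hz0
      linarith
    have h2 := fc_le_two (by omega) hJ3 hz hzm (by omega) hβ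
    have h4 : (m : ℝ) ^ z ≤ 2 ^ m := by
      calc (m : ℝ) ^ z ≤ (m : ℝ) ^ 3 := pow_le_pow_right₀ (by linarith) hz3
        _ ≤ 2 ^ m := by exact_mod_cast cube_le_two_pow (by omega)
    calc fcJ J m z ≤ 2 ^ (2 * m - 1) * (m : ℝ) ^ z := h2
      _ ≤ 2 ^ (2 * m) * 2 ^ m := by
          refine mul_le_mul (pow_le_pow_right₀ (by norm_num) (by omega)) h4 (by positivity)
            (by positivity)
      _ = 8 ^ m := by
          rw [← pow_add, show 2 * m + m = 3 * m by ring, pow_mul]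
          norm_num
      _ ≤ (3 / 8 * ((m : ℝ) / 3)) ^ m := pow_le_pow_left₀ (by norm_num) (by linarith) m
      _ = (3 / 8) ^ m * ((m : ℝ) / 3) ^ m := mul_pow _ _ _
      _ ≤ 1 / 10000 * (m.factorial : ℝ) := by
          refine mul_le_mul ?_ hfac (by positivity) (by norm_num)
          calc ((3 : ℝ) / 8) ^ m ≤ (3 / 8) ^ 64 :=
                pow_le_pow_of_le_one (by norm_num) (by norm_num) hm
            _ ≤ 1 / 10000 := by norm_num

/-- tail for long rows -/
theorem fc_tailB {J m z : ℕ} (hm : 64 ≤ m) (hJ : 2 ≤ J) (hJ3 : J ≤ 3) (hz2 : m < 2 * z)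
    (hz3 : 3 * z + 3 ≤ 2 * m) : fcJ J m z ≤ 1 / 50 * (m.factorial : ℝ) := by
  have hm' : (64 : ℝ) ≤ m := by exact_mod_cast hm
  have hz : 1 ≤ z := by omega
  have hz0 : (1 : ℝ) ≤ z := by exact_mod_cast hz
  have hJ' : (2 : ℝ) ≤ J := by exact_mod_cast hJ
  have hz2' : (m : ℝ) ≤ 2 * (z : ℝ) := by exact_mod_cast hz2.le
  have hz3' : 3 * (z : ℝ) + 3 ≤ 2 * m := by exact_mod_cast hz3
  have hzm : J * z + 3 ≤ 2 * m := by nlinarith
  have hfac := fact_third m
  have hβ : (((z : ℝ) + 1) / 2 + (2 * (m : ℝ) - 3) / z - J) / 2 ≤ 175 / 1000 * m := by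
    have h1 : (2 * (m : ℝ) - 3) / z ≤ 35 / 100 * m + 2 - ((z : ℝ) + 1) / 2 := by
      rw [div_le_iff₀ (by linarith)]
      nlinarith [mul_nonneg (sub_nonneg.2 hz2') (sub_nonneg.2 hz3')]
    linarith
  have h2 := fc_le_two (by omega) hJ3 hz hzm (by omega) hβ
  have hnn : 0 ≤ fcJ J m z := by
    unfold fcJ
    have := b_nonneg hz hzm
    positivity
  have h3 : fcJ J m z ^ 3 ≤ (1 / 50 * (m.factorial : ℝ)) ^ 3 := by
    calc fcJ J m z ^ 3 ≤ (2 ^ (2 * m - 1) * (175 / 1000 * (m : ℝ)) ^ z) ^ 3 :=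
          pow_le_pow_left₀ hnn h2 3
      _ = (2 ^ (2 * m - 1)) ^ 3 * (175 / 1000 * (m : ℝ)) ^ (3 * z) := by
          rw [mul_pow, ← pow_mul (175 / 1000 * (m : ℝ)), mul_comm z 3]
      _ ≤ (2 ^ (2 * m) / 2) ^ 3 * (175 / 1000 * (m : ℝ)) ^ (2 * m) := by
          refine mul_le_mul ?_ ?_ (by positivity) (by positivity)
          · refine pow_le_pow_left₀ (by positivity) ?_ 3
            rw [le_div_iff₀ (by norm_num), ← pow_succ, show 2 * m - 1 + 1 = 2 * m by omega]
          · exact pow_le_pow_right₀ (by linarith) (by omega)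
      _ = 1 / 8 * (64 * (175 / 1000 * (m : ℝ)) ^ 2) ^ m := by
          have e1 : ((2 : ℝ) ^ (2 * m)) ^ 3 = 64 ^ m := by
            rw [← pow_mul, show 2 * m * 3 = 6 * m by ring, pow_mul]
            norm_num
          have e2 : (175 / 1000 * (m : ℝ)) ^ (2 * m) = ((175 / 1000 * (m : ℝ)) ^ 2) ^ m := pow_mul _ _ _
          rw [div_pow, e1, e2, mul_pow 64]
          ring
      _ ≤ 1 / 8 * (827 / 1000 * (((m : ℝ) / 3) ^ 3)) ^ m := by
          refine mul_le_mul_of_nonneg_left (pow_le_pow_left₀ (by positivity) ?_ m) (by norm_num)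
          have : (0 : ℝ) ≤ (m : ℝ) ^ 2 * ((m : ℝ) - 64) := by
            have := sub_nonneg.2 hm'
            positivity
          nlinarith
      _ = 1 / 8 * (827 / 1000) ^ m * (((m : ℝ) / 3) ^ m) ^ 3 := by
          rw [mul_pow, ← pow_mul, ← pow_mul, mul_comm 3 m]
          ring
      _ ≤ (1 / 50) ^ 3 * ((m.factorial : ℝ)) ^ 3 := by
          refine mul_le_mul ?_ (pow_le_pow_left₀ (by positivity) hfac 3) (by positivity)
            (by positivity)
          calc (1 : ℝ) / 8 * (827 / 1000) ^ m ≤ 1 / 8 * (827 / 1000) ^ 64 := by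
                refine mul_le_mul_of_nonneg_left ?_ (by norm_num)
                exact pow_le_pow_of_le_one (by norm_num) (by norm_num) hm
            _ ≤ (1 / 50) ^ 3 := by norm_num
      _ = (1 / 50 * (m.factorial : ℝ)) ^ 3 := by rw [mul_pow]
  exact le_of_pow_le_pow_left₀ (by norm_num) (by positivity) h3

/-! ### the families -/

theorem FC1 {m z : ℕ} (hm : 16 ≤ m) (hz : 1 ≤ z) (hzm : 2 * z ≤ m) :
    fcJ 1 m z ≤ 1 / 15 * (m.factorial : ℝ) := by
  rcases Nat.lt_or_ge m 64 with h | h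
  · have := fc_of_chk (num := 1) (den := 15) hm le_rfl hz (by omega) (by omega) (by norm_num)
      (fcAll_spec chk1 hm (by omega) hz (by omega : z ≤ m / 2))
    simpa using this
  · refine (fc_tailA h le_rfl (by norm_num) hz hzm).trans ?_
    have hf : (0 : ℝ) < (m.factorial : ℝ) := by exact_mod_cast m.factorial_pos
    nlinarith

theorem FC2 {m z : ℕ} (hm : 16 ≤ m) (hz : 1 ≤ z) (hzm : 3 * z + 3 ≤ 2 * m) :
    fcJ 2 m z ≤ 4 / 25 * (m.factorial : ℝ) := by
  have hf : (0 : ℝ) < (m.factorial : ℝ) := by exact_mod_cast m.factorial_pos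
  rcases Nat.lt_or_ge m 64 with h | h
  · have := fc_of_chk (num := 4) (den := 25) hm (by norm_num) hz (by omega) (by omega) (by norm_num)
      (fcAll_spec chk2 hm (by omega) hz (by omega : z ≤ (2 * m - 3) / 3))
    simpa using this
  · rcases Nat.lt_or_ge m (2 * z) with h2 | h2
    · refine (fc_tailB h le_rfl (by norm_num) h2 hzm).trans ?_
      nlinarith
    · refine (fc_tailA h (by norm_num) (by norm_num) hz h2).trans ?_
      nlinarith

theorem FC3 {m z : ℕ} (hm : 16 ≤ m) (hz : 1 ≤ z) (hzm : 3 * z + 3 ≤ 2 * m) :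
    fcJ 3 m z ≤ 2 / 25 * (m.factorial : ℝ) := by
  have hf : (0 : ℝ) < (m.factorial : ℝ) := by exact_mod_cast m.factorial_pos
  rcases Nat.lt_or_ge m 64 with h | h
  · have := fc_of_chk (num := 2) (den := 25) hm (by norm_num) hz (by omega) (by omega) (by norm_num)
      (fcAll_spec chk3 hm (by omega) hz (by omega : z ≤ (2 * m - 3) / 3))
    simpa using this
  · rcases Nat.lt_or_ge m (2 * z) with h2 | h2
    · refine (fc_tailB h (by norm_num) le_rfl h2 hzm).trans ?_
      nlinarith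
    · refine (fc_tailA h (by norm_num) le_rfl hz h2).trans ?_
      nlinarith

theorem FC3a {m z : ℕ} (hm : 16 ≤ m) (hz : 1 ≤ z) (hzm : 2 * z ≤ m) :
    fcJ 3 m z ≤ 3 / 100 * (m.factorial : ℝ) := by
  have hf : (0 : ℝ) < (m.factorial : ℝ) := by exact_mod_cast m.factorial_pos
  rcases Nat.lt_or_ge m 64 with h | h
  · have := fc_of_chk (num := 3) (den := 100) hm (by norm_num) hz (by omega) (by omega) (by norm_num)
      (fcAll_spec chk3a hm (by omega) hz (by omega : z ≤ m / 2))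
    simpa using this
  · refine (fc_tailA h (by norm_num) le_rfl hz hzm).trans ?_
    nlinarith

theorem FC3b {m z : ℕ} (hm : 16 ≤ m) (hz : 1 ≤ z) (hzm : 2 * z + 1 ≤ m) :
    fcJ 3 m z ≤ 23 / 2000 * (m.factorial : ℝ) := by
  have hf : (0 : ℝ) < (m.factorial : ℝ) := by exact_mod_cast m.factorial_pos
  rcases Nat.lt_or_ge m 64 with h | h
  · have := fc_of_chk (num := 23) (den := 2000) hm (by norm_num) hz (by omega) (by omega)
      (by norm_num) (fcAll_spec chk3b hm (by omega) hz (by omega : z ≤ (m - 1) / 2))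
    simpa using this
  · refine (fc_tailA h (by norm_num) le_rfl hz (by omega)).trans ?_
    nlinarith

end Pool.JM
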