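import Pool.Agent.Work.MP_46fa68_95.MarkVal

/-! # Full marked kernels: the indicator of `S_n`, left and right operators

Everything lives in `Mat N` (matrices over `Perm (Fin N)`). `Dg n` is the indicator of `S_n = Sn n`
as a diagonal matrix. A kernel of level `n` is a matrix over `S_(n+1)` with marked point `n`,
invariant under `S_n` from both sides. -/

set_option autoImplicit false

open Finset Equiv

namespace Pool.JM

variable {N M : ℕ}

/-- diagonal indicator of `S_n` -/
noncomputable def Dg (N n : ℕ) : Mat N := by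
  classical
  exact fun g h => if g = h ∧ Sn n g then 1 else 0

theorem Dg_apply (n : ℕ) (g h : Perm (Fin N)) [Decidable (g = h ∧ Sn n g)] :
    Dg N n g h = if g = h ∧ Sn n g then 1 else 0 := by
  unfold Dg
  split_ifs <;> rfl

theorem Dg_mul_apply (n : ℕ) (T : Mat N) (g h : Perm (Fin N)) [Decidable (Sn n g)] :
    (Dg N n * T) g h = if Sn n g then T g h else 0 := by
  classical
  rw [Matrix.mul_apply, Finset.sum_eq_single g]
  · rw [Dg_apply]
    by_cases hg : Sn n g
    · rw [if_pos ⟨rfl, hg⟩, one_mul, if_pos hg]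
    · rw [if_neg (fun h => hg h.2), zero_mul, if_neg hg]
  · intro b _ hb
    rw [Dg_apply, if_neg (fun h => hb h.1.symm), zero_mul]
  · intro h
    exact absurd (mem_univ _) h

theorem mul_Dg_apply (n : ℕ) (T : Mat N) (g h : Perm (Fin N)) [Decidable (Sn n h)] :
    (T * Dg N n) g h = if Sn n h then T g h else 0 := by
  classical
  rw [Matrix.mul_apply, Finset.sum_eq_single h]
  · rw [Dg_apply]
    by_cases hg : Sn n h
    · rw [if_pos ⟨rfl, hg⟩, mul_one, if_pos hg]
    · rw [if_neg (fun h => hg h.2), mul_zero, if_neg hg]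
  · intro b _ hb
    rw [Dg_apply, if_neg (fun h => hb h.1), mul_zero]
  · intro h
    exact absurd (mem_univ _) h

theorem Dg_transpose (n : ℕ) : (Dg N n).transpose = Dg N n := by
  classical
  ext g h
  rw [Matrix.transpose_apply, Dg_apply, Dg_apply]
  refine if_congr ?_ rfl rfl
  constructor
  · rintro ⟨rfl, h2⟩
    exact ⟨rfl, h2⟩
  · rintro ⟨rfl, h2⟩
    exact ⟨rfl, h2⟩

theorem Dg_mul_Dg {k n : ℕ} (h : k ≤ n) : Dg N n * Dg N k = Dg N k := by
  classical
  ext g h'
  rw [Dg_mul_apply, Dg_apply]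
  by_cases hk : g = h' ∧ Sn k g
  · rw [if_pos hk, if_pos (Sn_mono h hk.2)]
  · rw [if_neg hk, ite_self]

theorem Dg_mul_Dg' {k n : ℕ} (h : k ≤ n) : Dg N k * Dg N n = Dg N k := by
  have := congrArg Matrix.transpose (Dg_mul_Dg (N := N) h)
  rwa [Matrix.transpose_mul, Dg_transpose, Dg_transpose] at this

theorem Dg_idem (n : ℕ) : Dg N n * Dg N n = Dg N n := Dg_mul_Dg le_rfl

theorem Dg_top (n : ℕ) (h : N ≤ n) : Dg N n = 1 := by
  classical
  ext g h'
  rw [Dg_apply, Matrix.one_apply]
  refine if_congr ?_ rfl rfl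
  constructor
  · exact fun h => h.1
  · intro h1
    exact ⟨h1, fun k hk => absurd k.2 (by omega)⟩

/-- operators supported on `g h⁻¹ ∈ S_n` commute with the indicator -/
theorem Dg_comm {k n : ℕ} (hkn : k ≤ n) {T : Mat N} (hT : Bd k T) :
    Dg N n * T = T * Dg N n := by
  classical
  ext g h
  rw [Dg_mul_apply, mul_Dg_apply]
  by_cases h1 : Sn k (g * h⁻¹)
  · have h2 : Sn n (g * h⁻¹) := Sn_mono hkn h1
    have h3 : Sn n g ↔ Sn n h := by
      constructor
      · intro hg
        have := (Sn_mul_iff hg).1 h2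
        simpa using Sn_inv this
      · intro hh
        exact (Sn_mul_iff' (Sn_inv hh)).1 h2
    exact if_congr h3 rfl rfl
  · rw [hT g h h1, ite_self, ite_self]

theorem Sn_inv_iff {n : ℕ} {g : Perm (Fin N)} : Sn n g⁻¹ ↔ Sn n g :=
  ⟨fun h => by simpa using Sn_inv h, fun h => Sn_inv h⟩

theorem rv_Dg (n : ℕ) : rv (Dg N n) = Dg N n := by
  classical
  ext g h
  change Dg N n g⁻¹ h⁻¹ = _
  rw [Dg_apply, Dg_apply]
  refine if_congr ?_ rfl rfl
  rw [inv_inj, Sn_inv_iff]

theorem Dg_comm_rv {k n : ℕ} (hkn : k ≤ n) {T : Mat N} (hT : Bd k T) :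
    Dg N n * rv T = rv T * Dg N n := by
  nth_rewrite 1 [← rv_Dg]
  rw [← rv_mul, Dg_comm hkn hT, rv_mul, rv_Dg]

/-- compression to `S_n` -/
theorem Dg_T_Dg {n : ℕ} (T : Mat N) : Dg N n * T * Dg N n = E n T * Dg N n := by
  classical
  ext g h
  rw [mul_Dg_apply, mul_Dg_apply]
  by_cases hh : Sn n h
  · rw [if_pos hh, if_pos hh, Dg_mul_apply]
    by_cases hg : Sn n g
    · rw [if_pos hg, E_apply_of (Sn_mul hg (Sn_inv hh))]
    · rw [if_neg hg, E_apply_not]
      intro h1
      exact hg ((Sn_mul_iff' (Sn_inv hh)).1 h1)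
  · rw [if_neg hh, if_neg hh]

/-- class functions of `S_n`: left and right action agree on functions on `S_n` -/
theorem rv_mul_Dg {n : ℕ} {T : Mat N} (hT : Al n T) (hs : T.transpose = T)
    (hc : ∀ σ : Perm (Fin N), Sn n σ → U σ * T = T * U σ) :
    rv T * Dg N n = T * Dg N n := by
  classical
  ext g h
  rw [mul_Dg_apply, mul_Dg_apply]
  by_cases hh : Sn n h
  · rw [if_pos hh, if_pos hh]
    by_cases hg : Sn n g
    · have e1 : T g⁻¹ h⁻¹ = T (g⁻¹ * h) 1 := by
        have := hT.2 (g⁻¹ * h) 1 h⁻¹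
        rw [one_mul] at this
        rw [← this]
        congr 1
        group
      have e2 : T (g⁻¹ * h) 1 = T (h * (g⁻¹ * h) * h⁻¹) 1 := by
        have e3 : (U h⁻¹ * T) (g⁻¹ * h * h⁻¹) 1 = T (h * (g⁻¹ * h) * h⁻¹) 1 := by
          rw [U_mul_apply, inv_inv, ← mul_assoc]
        rw [← e3, hc _ (Sn_inv hh), mul_U_apply, mul_one]
        have := hT.2 (g⁻¹ * h) 1 h⁻¹
        rw [one_mul] at this
        exact this.symm
      have e4 : T (h * (g⁻¹ * h) * h⁻¹) 1 = T h g := by
        have := hT.2 (h * g⁻¹) 1 g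
        rw [one_mul] at this
        have e5 : h * g⁻¹ * g = h := by group
        rw [e5] at this
        rw [this]
        congr 1
        group
      have e6 : T h g = T g h := by
        have := congrFun (congrFun hs g) h
        rwa [Matrix.transpose_apply] at this
      change T g⁻¹ h⁻¹ = T g h
      rw [e1, e2, e4, e6]
    · have h1 : ¬ Sn n (g * h⁻¹) := fun h' => hg ((Sn_mul_iff' (Sn_inv hh)).1 h')
      have h2 : ¬ Sn n (g⁻¹ * (h⁻¹)⁻¹) := by
        intro h'
        rw [inv_inv] at h'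
        have := (Sn_mul_iff' hh).1 h'
        exact hg (by simpa using Sn_inv this)
      change T g⁻¹ h⁻¹ = T g h
      rw [hT.1 _ _ h1, hT.1 _ _ h2]
  · rw [if_neg hh, if_neg hh]

theorem rvP_Dg (hM : N < M) {n : ℕ} (hn : n ≤ N) {C : Finset ℕ} (hC : C ∈ Lv M n) :
    rv (P N M n C) * Dg N n = P N M n C * Dg N n :=
  rv_mul_Dg ((good (N := N) hM n hn).al C) ((good (N := N) hM n hn).symm C)
    (fun σ hσ => P_cent_k hM hn hC σ hσ)

theorem Dg_rvP (hM : N < M) {n : ℕ} (hn : n ≤ N) {C : Finset ℕ} (hC : C ∈ Lv M n) :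
    Dg N n * rv (P N M n C) = P N M n C * Dg N n := by
  rw [Dg_comm_rv le_rfl ((good (N := N) hM n hn).al C).1, rvP_Dg hM hn hC]

/-- conjugation by `s_n`: matrix of `h ↦ s h s` -/
theorem cj_apply {n : ℕ} (h : n + 1 < N) (g g' : Perm (Fin N)) :
    (U (s n h) * rv (U (s n h))) g g' = if g = s n h * g' * s n h then 1 else 0 := by
  rw [U_mul_apply, s_inv]
  unfold rv U
  refine if_congr ?_ rfl rfl
  constructor
  · intro h1
    have h2 : s n h * g = (s n h * g'⁻¹)⁻¹ := by rw [← h1, inv_inv]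
    calc g = s n h * (s n h * g) := by rw [← mul_assoc, s_mul, one_mul]
      _ = _ := by rw [h2, mul_inv_rev, inv_inv, s_inv, mul_assoc]
  · intro h1
    rw [h1, ← mul_assoc, ← mul_assoc, s_mul, one_mul, mul_inv_rev, s_inv]

/-- compression of the conjugation -/
theorem Dg_cj_Dg {n : ℕ} (h : n + 1 < N) :
    Dg N (n + 1) * (U (s n h) * rv (U (s n h))) * Dg N (n + 1) = Dg N n := by
  classical
  ext g g'
  rw [mul_Dg_apply, Dg_mul_apply, cj_apply, Dg_apply]
  by_cases h1 : g = g' ∧ Sn n g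
  · obtain ⟨rfl, h2⟩ := h1
    rw [if_pos (Sn_mono (Nat.le_succ n) h2), if_pos (Sn_mono (Nat.le_succ n) h2), if_pos,
      if_pos ⟨rfl, h2⟩]
    rw [← s_comm h h2, mul_assoc, s_mul, mul_one]
  · rw [if_neg h1]
    by_cases h2 : Sn (n + 1) g'
    · rw [if_pos h2]
      by_cases h3 : Sn (n + 1) g
      · rw [if_pos h3, if_neg]
        intro h4
        apply h1
        -- g' fixes n
        have e1 : s n h * g = g' * s n h := by
          rw [h4, ← mul_assoc, ← mul_assoc, s_mul, one_mul]
        have e2 : g' (⟨n, by omega⟩ : Fin N) = ⟨n, by omega⟩ := by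
          have := congrArg (fun σ : Perm (Fin N) => σ (⟨n + 1, h⟩ : Fin N)) e1
          simp only [Perm.mul_apply] at this
          rw [h3 ⟨n + 1, h⟩ (by simp)] at this
          unfold s at this
          rw [swap_apply_right] at this
          exact this.symm
        have e3 : Sn n g' := by
          intro k hk
          rcases eq_or_lt_of_le hk with h5 | h5
          · have : k = ⟨n, by omega⟩ := Fin.ext h5.symm
            rw [this, e2]
          · exact h2 k h5
        have e4 : g = g' := by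
          rw [h4, ← s_comm h e3, mul_assoc, s_mul, mul_one]
        exact ⟨e4, e4 ▸ e3⟩
      · rw [if_neg h3]
    · rw [if_neg h2]

end Pool.JM
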