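import Pool.Agent.Work.MP_46fa68_h5.NearDefs

/-!
# MP_46fa68_co: the numerical lemmas NN1 - NN7 of row 2 near the wall
-/

set_option autoImplicit false

open Finset

namespace Pool.JM

namespace N62

/-- the factorials of `Nn` -/
noncomputable def PP (m i : ℕ) : ℝ :=
  ((m + i - 5).factorial : ℝ) * ((m + 2 - i).factorial : ℝ) /
    (((m - 4).factorial : ℝ) * (m.factorial : ℝ))

theorem Nn_eq (m i : ℕ) (d : ℝ) : Nn m i d =
    PP m i * SrR m i d / (((i - 1).factorial : ℝ) * (((m : ℝ) + 6 - 2 * i - d) * ((i : ℝ) - d))) := by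
  unfold Nn BdR PP
  obtain ⟨D, hD⟩ : ∃ D : ℝ, D = ((m : ℝ) + 6 - 2 * i - d) * ((i : ℝ) - d) := ⟨_, rfl⟩
  rw [← hD]
  ring

theorem PP_succ {m i : ℕ} (hm : 5 ≤ m) (hi : 1 ≤ i) (hi2 : i ≤ m + 1) :
    PP m (i + 1) * ((m : ℝ) + 2 - i) = PP m i * ((m : ℝ) + i - 4) := by
  unfold PP
  have e1 : m + (i + 1) - 5 = (m + i - 5) + 1 := by omega
  have e2 : m + 2 - i = (m + 1 - i) + 1 := by omega
  have e3 : m + 2 - (i + 1) = m + 1 - i := by omega
  rw [e1, Nat.factorial_succ, e3, e2, Nat.factorial_succ]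
  have c1 : (((m + i - 5 : ℕ) : ℝ)) = (m : ℝ) + i - 5 := by
    rw [Nat.cast_sub (by omega)]
    push_cast
    ring
  have c2 : (((m + 1 - i : ℕ) : ℝ)) = (m : ℝ) + 1 - i := by
    rw [Nat.cast_sub (by omega)]
    push_cast
    ring
  push_cast
  rw [c1, c2]
  ring

theorem PP_pos (m i : ℕ) : 0 < PP m i := by
  unfold PP
  positivity

theorem PP_five {m : ℕ} (hm : 5 ≤ m) : PP m 5 = (m : ℝ) - 3 := by
  unfold PP
  have e1 : m + 5 - 5 = m := by omega
  have e2 : m + 2 - 5 = (m - 4) + 1 := by omega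
  rw [e1, e2, Nat.factorial_succ]
  have c1 : (((m - 4 : ℕ) : ℝ)) = (m : ℝ) - 4 := by
    rw [Nat.cast_sub (by omega)]
    push_cast
    ring
  push_cast
  rw [c1]
  have h1 : (0 : ℝ) < (m.factorial : ℝ) := by exact_mod_cast Nat.factorial_pos _
  have h2 : (0 : ℝ) < ((m - 4).factorial : ℝ) := by exact_mod_cast Nat.factorial_pos _
  field_simp
  ring

theorem PP_four {m : ℕ} (hm : 5 ≤ m) : PP m 4 = ((m : ℝ) - 2) * ((m : ℝ) - 3) / m := by
  have h := PP_succ (i := 4) hm (by omega) (by omega)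
  have h5 : (5 : ℝ) ≤ m := by exact_mod_cast hm
  rw [PP_five hm] at h
  rw [eq_div_iff (by linarith)]
  push_cast at h
  linarith

theorem PP_six {m : ℕ} (hm : 6 ≤ m) : PP m 6 = (m : ℝ) + 1 := by
  have h := PP_succ (i := 5) (show 5 ≤ m by omega) (by omega) (by omega)
  have h5 : (6 : ℝ) ≤ m := by exact_mod_cast hm
  rw [PP_five (by omega)] at h
  push_cast at h
  have h3 : (m : ℝ) - 3 ≠ 0 := by linarith
  have : (PP m 6 - ((m : ℝ) + 1)) * ((m : ℝ) - 3) = 0 := by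
    have h' : PP m (5 + 1) = PP m 6 := rfl
    rw [h'] at h
    nlinarith
  rcases mul_eq_zero.1 this with h | h
  · linarith
  · exact absurd h h3

theorem PP_seven {m : ℕ} (hm : 9 ≤ m) :
    PP m 7 = ((m : ℝ) + 1) * ((m : ℝ) + 2) / ((m : ℝ) - 4) := by
  have h := PP_succ (i := 6) (show 5 ≤ m by omega) (by omega) (by omega)
  have h5 : (9 : ℝ) ≤ m := by exact_mod_cast hm
  rw [PP_six (by omega)] at h
  push_cast at h
  have h' : PP m (6 + 1) = PP m 7 := rfl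
  rw [h'] at h
  rw [eq_div_iff (by linarith)]
  linarith

theorem PP_eight {m : ℕ} (hm : 9 ≤ m) :
    PP m 8 = ((m : ℝ) + 1) * ((m : ℝ) + 2) * ((m : ℝ) + 3) / (((m : ℝ) - 4) * ((m : ℝ) - 5)) := by
  have h := PP_succ (i := 7) (show 5 ≤ m by omega) (by omega) (by omega)
  have h5 : (9 : ℝ) ≤ m := by exact_mod_cast hm
  rw [PP_seven (by omega)] at h
  push_cast at h
  have h' : PP m (7 + 1) = PP m 8 := rfl
  rw [h'] at h
  have h4 : (m : ℝ) - 4 ≠ 0 := by linarith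
  rw [eq_div_iff (by apply mul_ne_zero <;> linarith)]
  have e : PP m 8 * (((m : ℝ) - 4) * ((m : ℝ) - 5)) = (PP m 8 * ((m : ℝ) + 2 - 7)) * ((m : ℝ) - 4) := by
    ring
  rw [e, h]
  field_simp
  ring

theorem PP_nine {m : ℕ} (hm : 9 ≤ m) :
    PP m 9 = ((m : ℝ) + 1) * ((m : ℝ) + 2) * ((m : ℝ) + 3) * ((m : ℝ) + 4) /
      (((m : ℝ) - 4) * ((m : ℝ) - 5) * ((m : ℝ) - 6)) := by
  have h := PP_succ (i := 8) (show 5 ≤ m by omega) (by omega) (by omega)
  have h5 : (9 : ℝ) ≤ m := by exact_mod_cast hm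
  rw [PP_eight (by omega)] at h
  push_cast at h
  have h' : PP m (8 + 1) = PP m 9 := rfl
  rw [h'] at h
  have h4 : (m : ℝ) - 4 ≠ 0 := by linarith
  have h5 : (m : ℝ) - 5 ≠ 0 := by linarith
  rw [eq_div_iff (by apply mul_ne_zero (mul_ne_zero _ _) <;> linarith)]
  have e : PP m 9 * (((m : ℝ) - 4) * ((m : ℝ) - 5) * ((m : ℝ) - 6)) =
      (PP m 9 * ((m : ℝ) + 2 - 8)) * (((m : ℝ) - 4) * ((m : ℝ) - 5)) := by
    ring
  rw [e, h]
  field_simp
  ring

/-- for `i ≥ 10` -/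
theorem PP_le {m i : ℕ} (hi : 6 ≤ i) (hi2 : 3 * i ≤ m + 6) :
    PP m i ≤ ((m : ℝ) + 1) * 2 ^ (i - 6) := by
  induction i, hi using Nat.le_induction with
  | base =>
    rw [PP_six (by omega)]
    norm_num
  | succ i hi ih =>
    have h := PP_succ (i := i) (show 5 ≤ m by omega) (by omega) (by omega)
    have hr : (3 : ℝ) * (i + 1) ≤ m + 6 := by exact_mod_cast hi2
    have h6 : (6 : ℝ) ≤ i := by exact_mod_cast hi
    have h0 : (0 : ℝ) < (m : ℝ) + 2 - i := by linarith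
    have h1 : PP m (i + 1) ≤ 2 * PP m i := by
      have h2 : PP m i * ((m : ℝ) + i - 4) ≤ (2 * PP m i) * ((m : ℝ) + 2 - i) := by
        have := (PP_pos m i).le
        nlinarith
      rw [← h] at h2
      exact le_of_mul_le_mul_right h2 h0
    have := ih (by omega)
    rw [show i + 1 - 6 = (i - 6) + 1 by omega, pow_succ]
    linarith

/-- the bound of `SrR` from bounds of its parts -/
theorem SrR_le {m i : ℕ} {d : ℝ} (hm : 9 ≤ m) (hi : 4 ≤ i) (hi2 : 3 * i ≤ m + 6)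
    {a b c Y E : ℝ} (ha : (3 * (m : ℝ) - 2) / ((m : ℝ) - 3) ≤ a)
    (hb : (2 * ((m : ℝ) - 1) / ((m : ℝ) - 3) +
      ((i : ℝ) - 1) * ((i : ℝ) - 2) / (2 * ((m : ℝ) - 3) * ((m : ℝ) + 1))) *
      (((m : ℝ) + 2) / ((m : ℝ) + 1)) ^ (i - 2) ≤ b)
    (hc : ((i : ℝ) - 2) / ((m : ℝ) + 1) ≤ c) (hY : yR m i ≤ Y) (hE : EyR m i ≤ E) :
    SrR m i d ≤ a * |d - 1| + b * (|d| + c) +
      (Y * E + if 2 ≤ |d| then (|d| - 2) * (E * (1 - 1 / Y) + 1 / Y) else |d| - 2) := by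
  have h9 : (9 : ℝ) ≤ m := by exact_mod_cast hm
  have h4 : (4 : ℝ) ≤ i := by exact_mod_cast hi
  have h3 : (3 : ℝ) * i ≤ m + 6 := by exact_mod_cast hi2
  have hmu : muR m i = 1 := by
    unfold muR
    apply max_eq_left
    rw [div_le_one (by linarith)]
    linarith
  have hy1 : 1 ≤ yR m i := by
    unfold yR
    have : (0 : ℝ) ≤ ((i - 5 : ℕ) : ℝ) / ((m : ℝ) + 1) := by positivity
    linarith
  have hE1 : 1 ≤ EyR m i := by
    unfold EyR
    have : (1 : ℝ) ≤ (((m : ℝ) + 1) / m) ^ (i - 5) := by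
      apply one_le_pow₀
      rw [le_div_iff₀ (by linarith)]
      linarith
    linarith
  have hd0 : 0 ≤ |d| := abs_nonneg _
  have hd1 : 0 ≤ |d - 1| := abs_nonneg _
  have hc0 : 0 ≤ ((i : ℝ) - 2) / ((m : ℝ) + 1) := div_nonneg (by linarith) (by linarith)
  have hb0 : 0 ≤ b := by
    refine le_trans ?_ hb
    have a1 : 0 ≤ 2 * ((m : ℝ) - 1) / ((m : ℝ) - 3) := div_nonneg (by linarith) (by linarith)
    have a2 : 0 ≤ ((i : ℝ) - 1) * ((i : ℝ) - 2) / (2 * ((m : ℝ) - 3) * ((m : ℝ) + 1)) := by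
      apply div_nonneg <;> apply mul_nonneg <;> linarith
    have a3 : 0 ≤ (((m : ℝ) + 2) / ((m : ℝ) + 1)) ^ (i - 2) := by positivity
    exact mul_nonneg (add_nonneg a1 a2) a3
  unfold SrR
  rw [hmu, one_mul]
  have t1 : (3 * (m : ℝ) - 2) / ((m : ℝ) - 3) * |d - 1| ≤ a * |d - 1| :=
    mul_le_mul_of_nonneg_right ha hd1
  have t2 : (2 * ((m : ℝ) - 1) / ((m : ℝ) - 3) +
      ((i : ℝ) - 1) * ((i : ℝ) - 2) / (2 * ((m : ℝ) - 3) * ((m : ℝ) + 1))) *
      (((m : ℝ) + 2) / ((m : ℝ) + 1)) ^ (i - 2) * (|d| + ((i : ℝ) - 2) / ((m : ℝ) + 1)) ≤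
      b * (|d| + c) :=
    mul_le_mul hb (by linarith) (by linarith) hb0
  have t3 : SAR (yR m i) (EyR m i) |d| ≤
      Y * E + if 2 ≤ |d| then (|d| - 2) * (E * (1 - 1 / Y) + 1 / Y) else |d| - 2 := by
    obtain ⟨y, hy⟩ : ∃ y, y = yR m i := ⟨_, rfl⟩
    obtain ⟨e, he⟩ : ∃ e, e = EyR m i := ⟨_, rfl⟩
    rw [← hy] at hY hy1
    rw [← he] at hE hE1
    rw [← hy, ← he]
    unfold SAR
    have k1 : y * e ≤ Y * E := mul_le_mul hY hE (by linarith) (by linarith)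
    have k2 : e * (1 - 1 / y) + 1 / y ≤ E * (1 - 1 / Y) + 1 / Y := by
      have k3 : 1 / Y ≤ 1 / y := one_div_le_one_div_of_le (by linarith) hY
      have k4 : 1 / y ≤ 1 := by
        rw [div_le_one (by linarith)]
        exact hy1
      nlinarith
    have k5 : 1 ≤ e * (1 - 1 / y) + 1 / y := by
      have k4 : 1 / y ≤ 1 := by
        rw [div_le_one (by linarith)]
        exact hy1
      nlinarith
    split_ifs with h
    · have := mul_le_mul_of_nonneg_left k2 (by linarith : 0 ≤ |d| - 2)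
      linarith
    · have h2 : |d| - 2 ≤ 0 := by linarith
      nlinarith
  linarith

/-- the value at `m = 21` -/
noncomputable def S21 (i : ℕ) (d : ℝ) : ℝ :=
  61 / 18 * |d - 1| + ((40 / 18 + ((i : ℝ) - 1) * ((i : ℝ) - 2) / 792) * (23 / 22) ^ (i - 2)) *
    (|d| + ((i : ℝ) - 2) / 22) +
    ((1 + ((i - 5 : ℕ) : ℝ) / 22) * (2.7183 * (22 / 21) ^ (i - 5)) +
      if 2 ≤ |d| then (|d| - 2) * ((2.7183 * (22 / 21) ^ (i - 5)) *
        (1 - 1 / (1 + ((i - 5 : ℕ) : ℝ) / 22)) + 1 / (1 + ((i - 5 : ℕ) : ℝ) / 22)) else |d| - 2)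

theorem SrR_le21 {m i : ℕ} {d : ℝ} (hm : 21 ≤ m) (hi : 4 ≤ i) (hi2 : 3 * i ≤ m + 6) :
    SrR m i d ≤ S21 i d := by
  have h21 : (21 : ℝ) ≤ m := by exact_mod_cast hm
  have h4 : (4 : ℝ) ≤ i := by exact_mod_cast hi
  unfold S21
  apply SrR_le (by omega) hi hi2
  · rw [div_le_div_iff₀ (by linarith) (by norm_num)]
    linarith
  · have a1 : 2 * ((m : ℝ) - 1) / ((m : ℝ) - 3) ≤ 40 / 18 := by
      rw [div_le_div_iff₀ (by linarith) (by norm_num)]
      linarith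
    have a2 : ((i : ℝ) - 1) * ((i : ℝ) - 2) / (2 * ((m : ℝ) - 3) * ((m : ℝ) + 1)) ≤
        ((i : ℝ) - 1) * ((i : ℝ) - 2) / 792 := by
      apply div_le_div_of_nonneg_left
      · apply mul_nonneg <;> linarith
      · norm_num
      · nlinarith
    have a3 : (((m : ℝ) + 2) / ((m : ℝ) + 1)) ^ (i - 2) ≤ (23 / 22) ^ (i - 2) := by
      apply pow_le_pow_left₀ (by positivity)
      rw [div_le_div_iff₀ (by linarith) (by norm_num)]
      linarith
    have a4 : 0 ≤ ((i : ℝ) - 1) * ((i : ℝ) - 2) / 792 := by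
      apply div_nonneg _ (by norm_num)
      apply mul_nonneg <;> linarith
    exact mul_le_mul (by linarith) a3 (by positivity) (by linarith)
  · rw [div_le_div_iff₀ (by linarith) (by norm_num)]
    nlinarith
  · unfold yR
    have : ((i - 5 : ℕ) : ℝ) / ((m : ℝ) + 1) ≤ ((i - 5 : ℕ) : ℝ) / 22 := by
      apply div_le_div_of_nonneg_left (Nat.cast_nonneg _) (by norm_num) (by linarith)
    linarith
  · unfold EyR
    apply mul_le_mul_of_nonneg_left _ (by norm_num)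
    apply pow_le_pow_left₀ (by positivity)
    rw [div_le_div_iff₀ (by linarith) (by norm_num)]
    linarith

theorem Nn_le {m i : ℕ} {d s β : ℝ} (hm : 21 ≤ m) (hi : 4 ≤ i) (hi2 : 3 * i ≤ m + 6)
    (hd : d < i) (hD : 2 * (i : ℝ) + d < m + 6) (hs : S21 i d ≤ s)
    (h : PP m i * s ≤ β * (((i - 1).factorial : ℝ) * (((m : ℝ) + 6 - 2 * i - d) * ((i : ℝ) - d)))) :
    Nn m i d ≤ β := by
  rw [Nn_eq]
  have hf : (0 : ℝ) < ((i - 1).factorial : ℝ) := by exact_mod_cast Nat.factorial_pos _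
  rw [div_le_iff₀ (mul_pos hf (mul_pos (by linarith) (by linarith)))]
  exact (mul_le_mul_of_nonneg_left ((SrR_le21 hm hi hi2).trans hs) (PP_pos m i).le).trans h

end N62

end Pool.JM
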