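import Pool.Agent.Work.MP_46fa68_62.NNc

/-!
# MP_46fa68_co: NN1 - NN7
-/

set_option autoImplicit false

open Finset

namespace Pool.JM

namespace N62

theorem exp_third : Real.exp (1 / 3) ≤ 14 / 10 := by
  by_contra h
  push Not at h
  have h1 := pow_lt_pow_left₀ h (by norm_num) (show 3 ≠ 0 by norm_num)
  have h2 : Real.exp (1 / 3) ^ 3 = Real.exp 1 := by
    rw [← Real.exp_nat_mul]
    norm_num
  rw [h2] at h1
  have := Real.exp_one_lt_d9
  norm_num at h1
  linarith

theorem pow_le_third {x : ℝ} {n : ℕ} (hx : 0 < x) (h : 3 * (n : ℝ) ≤ x) :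
    ((x + 1) / x) ^ n ≤ 14 / 10 := by
  have h1 : (x + 1) / x = 1 / x + 1 := by
    field_simp
    ring
  have h2 : (1 / x + 1) ^ n ≤ Real.exp (1 / x) ^ n :=
    pow_le_pow_left₀ (by positivity) (Real.add_one_le_exp _) n
  rw [h1]
  refine h2.trans ?_
  rw [← Real.exp_nat_mul]
  refine le_trans (Real.exp_le_exp.2 ?_) exp_third
  rw [mul_one_div, div_le_div_iff₀ hx (by norm_num)]
  linarith

theorem SrR_big {m i : ℕ} {d : ℝ} (hi : 10 ≤ i) (hi2 : 3 * i ≤ m + 6) :
    SrR m i d ≤ 10 / 3 * |d - 1| + 3178 / 1000 * (|d| + 1 / 3) +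
      (4 / 3 * (3806 / 1000) + if 2 ≤ |d| then (|d| - 2) * (3806 / 1000 * (1 - 1 / (4 / 3)) +
        1 / (4 / 3)) else |d| - 2) := by
  have h10 : (10 : ℝ) ≤ i := by exact_mod_cast hi
  have h3 : (3 : ℝ) * i ≤ m + 6 := by exact_mod_cast hi2
  have h24 : (24 : ℝ) ≤ m := by linarith
  have c2 : ((i - 2 : ℕ) : ℝ) = (i : ℝ) - 2 := by
    rw [Nat.cast_sub (by omega)]
    norm_num
  have c5 : ((i - 5 : ℕ) : ℝ) = (i : ℝ) - 5 := by
    rw [Nat.cast_sub (by omega)]
    norm_num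
  apply SrR_le (by omega) (by omega) hi2
  · rw [div_le_div_iff₀ (by linarith) (by norm_num)]
    linarith
  · have a1 : 2 * ((m : ℝ) - 1) / ((m : ℝ) - 3) ≤ 46 / 21 := by
      rw [div_le_div_iff₀ (by linarith) (by norm_num)]
      linarith
    have a2 : ((i : ℝ) - 1) * ((i : ℝ) - 2) / (2 * ((m : ℝ) - 3) * ((m : ℝ) + 1)) ≤ 79 / 1000 := by
      rw [div_le_div_iff₀ (by nlinarith) (by norm_num)]
      have k1 : (i : ℝ) - 1 ≤ ((m : ℝ) + 3) / 3 := by linarith
      have k2 : (i : ℝ) - 2 ≤ (m : ℝ) / 3 := by linarith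
      have k3 : ((i : ℝ) - 1) * ((i : ℝ) - 2) ≤ ((m : ℝ) + 3) / 3 * ((m : ℝ) / 3) :=
        mul_le_mul k1 k2 (by linarith) (by linarith)
      nlinarith
    have a3 : (((m : ℝ) + 2) / ((m : ℝ) + 1)) ^ (i - 2) ≤ 14 / 10 := by
      have := pow_le_third (x := (m : ℝ) + 1) (n := i - 2) (by linarith) (by rw [c2]; linarith)
      rw [show (m : ℝ) + 1 + 1 = (m : ℝ) + 2 by ring] at this
      exact this
    calc _ ≤ ((46 / 21 : ℝ) + 79 / 1000) * (14 / 10) :=
          mul_le_mul (by linarith) a3 (by positivity) (by norm_num)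
      _ ≤ _ := by norm_num
  · rw [div_le_div_iff₀ (by linarith) (by norm_num)]
    linarith
  · unfold yR
    rw [c5]
    have : ((i : ℝ) - 5) / ((m : ℝ) + 1) ≤ 1 / 3 := by
      rw [div_le_div_iff₀ (by linarith) (by norm_num)]
      linarith
    linarith
  · unfold EyR
    have := pow_le_third (x := (m : ℝ)) (n := i - 5) (by linarith) (by rw [c5]; linarith)
    linarith

theorem SrR_big_pos {m i : ℕ} {d : ℝ} (hi : 10 ≤ i) (hi2 : 3 * i ≤ m + 6) (hd : 1 ≤ d)
    (hd2 : d = 1 ∨ 2 ≤ d) : SrR m i d ≤ 84 / 10 * d := by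
  refine (SrR_big hi hi2).trans ?_
  rw [abs_of_nonneg (show 0 ≤ d - 1 by linarith), abs_of_nonneg (show 0 ≤ d by linarith)]
  rcases hd2 with h | h
  · subst h
    norm_num
  · rw [if_pos h]
    linarith

theorem SrR_big_neg {m i e : ℕ} (hi : 10 ≤ i) (hi2 : 3 * i ≤ m + 6) :
    SrR m i (-(e : ℝ)) ≤ 822 / 100 * e + 75 / 10 := by
  refine (SrR_big hi hi2).trans ?_
  have he : (0 : ℝ) ≤ e := Nat.cast_nonneg _
  rw [show -(e : ℝ) - 1 = -((e : ℝ) + 1) by ring, abs_neg, abs_neg,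
    abs_of_nonneg (show 0 ≤ (e : ℝ) + 1 by linarith), abs_of_nonneg he]
  split_ifs with h
  · linarith
  · linarith

noncomputable def Qi (i : ℕ) : ℝ := (3 * (i : ℝ) - 5) * 2 ^ (i - 6) / ((i - 1).factorial : ℝ)

theorem Qi_pos {i : ℕ} (hi : 10 ≤ i) : 0 < Qi i := by
  have h10 : (10 : ℝ) ≤ i := by exact_mod_cast hi
  unfold Qi
  have hf : (0 : ℝ) < ((i - 1).factorial : ℝ) := by exact_mod_cast Nat.factorial_pos _
  have : 0 < 3 * (i : ℝ) - 5 := by linarith
  positivity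

theorem Qi_succ {i : ℕ} (hi : 10 ≤ i) :
    Qi (i + 1) * ((3 * (i : ℝ) - 5) * i) = Qi i * (2 * (3 * (i : ℝ) - 2)) := by
  have h10 : (10 : ℝ) ≤ i := by exact_mod_cast hi
  unfold Qi
  have e1 : i + 1 - 1 = (i - 1) + 1 := by omega
  have e2 : i + 1 - 6 = (i - 6) + 1 := by omega
  rw [e1, e2, Nat.factorial_succ, pow_succ]
  have c : ((i - 1 + 1 : ℕ) : ℝ) = i := by
    congr 1
    omega
  rw [Nat.cast_mul, c]
  have hf : (0 : ℝ) < ((i - 1).factorial : ℝ) := by exact_mod_cast Nat.factorial_pos _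
  have h0 : (i : ℝ) ≠ 0 := by linarith
  push_cast
  field_simp
  ring

theorem Qi_le {i : ℕ} (hi : 10 ≤ i) : Qi i * ((i : ℝ) - 1) ≤ 1 / 100 := by
  induction i, hi using Nat.le_induction with
  | base =>
    unfold Qi
    norm_num [Nat.factorial]
  | succ i hi ih =>
    have h10 : (10 : ℝ) ≤ i := by exact_mod_cast hi
    have h := Qi_succ hi
    have hp := Qi_pos hi
    refine le_trans ?_ ih
    push_cast
    have h5 : 0 < 3 * (i : ℝ) - 5 := by linarith
    have : (Qi (i + 1) * ((i : ℝ) + 1 - 1)) * (3 * (i : ℝ) - 5) ≤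
        (Qi i * ((i : ℝ) - 1)) * (3 * (i : ℝ) - 5) := by
      have e : (Qi (i + 1) * ((i : ℝ) + 1 - 1)) * (3 * (i : ℝ) - 5) =
          Qi (i + 1) * ((3 * (i : ℝ) - 5) * i) := by ring
      rw [e, h, mul_assoc]
      apply mul_le_mul_of_nonneg_left _ hp.le
      nlinarith
    exact le_of_mul_le_mul_right this h5

theorem Qi_le' {i : ℕ} (hi : 10 ≤ i) : Qi i ≤ 1 / 160 * (3 / 4) ^ (i - 4) := by
  induction i, hi using Nat.le_induction with
  | base =>
    unfold Qi
    norm_num [Nat.factorial]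
  | succ i hi ih =>
    have h10 : (10 : ℝ) ≤ i := by exact_mod_cast hi
    have h := Qi_succ hi
    have hp := Qi_pos hi
    have h5 : 0 < (3 * (i : ℝ) - 5) * i := mul_pos (by linarith) (by linarith)
    have h1 : Qi (i + 1) ≤ Qi i * (3 / 4) := by
      have : Qi (i + 1) * ((3 * (i : ℝ) - 5) * i) ≤ (Qi i * (3 / 4)) * ((3 * (i : ℝ) - 5) * i) := by
        rw [h, mul_assoc]
        apply mul_le_mul_of_nonneg_left _ hp.le
        nlinarith
      exact le_of_mul_le_mul_right this h5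
    rw [show i + 1 - 4 = (i - 4) + 1 by omega, pow_succ]
    linarith

theorem Nn_big {m i : ℕ} {d s β : ℝ} (hi : 10 ≤ i) (hi2 : 3 * i ≤ m + 6)
    (hd : d + 1 ≤ i) (hd2 : 5 ≤ 2 * (i : ℝ) + d) (hs0 : 0 ≤ s) (hs : SrR m i d ≤ s)
    (h : Qi i * s ≤ β * ((i : ℝ) - d) ^ 2) : Nn m i d ≤ β := by
  have h10 : (10 : ℝ) ≤ i := by exact_mod_cast hi
  have h3 : (3 : ℝ) * i ≤ m + 6 := by exact_mod_cast hi2
  rw [Nn_eq]
  have hf : (0 : ℝ) < ((i - 1).factorial : ℝ) := by exact_mod_cast Nat.factorial_pos _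
  have hD : 0 < (m : ℝ) + 6 - 2 * i - d := by linarith
  have hd0 : 0 < (i : ℝ) - d := by linarith
  rw [div_le_iff₀ (mul_pos hf (mul_pos hD hd0))]
  have h1 : PP m i * SrR m i d ≤ ((m : ℝ) + 1) * 2 ^ (i - 6) * s :=
    (mul_le_mul_of_nonneg_left hs (PP_pos m i).le).trans
      (mul_le_mul_of_nonneg_right (PP_le (by omega) hi2) hs0)
  refine h1.trans ?_
  have h2 : ((m : ℝ) + 1) * ((i : ℝ) - d) ≤ (3 * (i : ℝ) - 5) * ((m : ℝ) + 6 - 2 * i - d) := by
    nlinarith [mul_nonneg (show (0 : ℝ) ≤ m + 6 - 3 * i by linarith)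
      (show (0 : ℝ) ≤ 2 * (i : ℝ) + d - 5 by linarith)]
  have h4 : Qi i * ((i - 1).factorial : ℝ) = (3 * (i : ℝ) - 5) * 2 ^ (i - 6) := by
    unfold Qi
    field_simp
  have h5 : (((m : ℝ) + 1) * 2 ^ (i - 6) * s) * ((i : ℝ) - d) ≤
      (β * (((i - 1).factorial : ℝ) * (((m : ℝ) + 6 - 2 * i - d) * ((i : ℝ) - d)))) *
        ((i : ℝ) - d) := by
    calc (((m : ℝ) + 1) * 2 ^ (i - 6) * s) * ((i : ℝ) - d)
        = (((m : ℝ) + 1) * ((i : ℝ) - d)) * (2 ^ (i - 6) * s) := by ring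
      _ ≤ ((3 * (i : ℝ) - 5) * ((m : ℝ) + 6 - 2 * i - d)) * (2 ^ (i - 6) * s) :=
          mul_le_mul_of_nonneg_right h2 (by positivity)
      _ = ((3 * (i : ℝ) - 5) * 2 ^ (i - 6)) * s * ((m : ℝ) + 6 - 2 * i - d) := by ring
      _ = (Qi i * s) * (((i - 1).factorial : ℝ) * ((m : ℝ) + 6 - 2 * i - d)) := by
          rw [← h4]
          ring
      _ ≤ (β * ((i : ℝ) - d) ^ 2) * (((i - 1).factorial : ℝ) * ((m : ℝ) + 6 - 2 * i - d)) :=
          mul_le_mul_of_nonneg_right h (mul_pos hf hD).le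
      _ = _ := by ring
  exact le_of_mul_le_mul_right h5 hd0

end N62

open N62

theorem blk_NN1 : Stmt_NN1 := by
  intro m i hm hi hi2
  by_cases h10 : 10 ≤ i
  · have h10R : (10 : ℝ) ≤ i := by exact_mod_cast h10
    refine Nn_big (s := 84 / 10 * 1) h10 hi2 (by linarith) (by linarith) (by norm_num)
      (SrR_big_pos h10 hi2 le_rfl (Or.inl rfl)) ?_
    have h1 := Qi_le h10
    have h2 := Qi_pos h10
    nlinarith
  · push Not at h10
    interval_cases i
    · exact nn1_4_1 hm hi2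
    · exact nn1_5_1 hm hi2
    · exact nn1_6_1 hm hi2
    · exact nn1_7_1 hm hi2
    · exact nn1_8_1 hm hi2
    · exact nn1_9_1 hm hi2

theorem blk_NN2 : Stmt_NN2 := by
  intro m i hm hi hi2
  by_cases h10 : 10 ≤ i
  · have h10R : (10 : ℝ) ≤ i := by exact_mod_cast h10
    refine Nn_big (s := 84 / 10 * 2) h10 hi2 (by linarith) (by linarith) (by norm_num)
      (SrR_big_pos h10 hi2 (by norm_num) (Or.inr le_rfl)) ?_
    have h1 := Qi_le h10
    have h2 := Qi_pos h10
    have e : 1 / (4 * ((i : ℝ) - 2)) * ((i : ℝ) - 2) ^ 2 = ((i : ℝ) - 2) / 4 := by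
      have : (i : ℝ) - 2 ≠ 0 := by linarith
      field_simp
    rw [e]
    nlinarith
  · push Not at h10
    interval_cases i
    · exact (nn2_6_2 hm hi2).trans (by norm_num)
    · exact (nn2_7_2 hm hi2).trans (by norm_num)
    · exact (nn2_8_2 hm hi2).trans (by norm_num)
    · exact (nn2_9_2 hm hi2).trans (by norm_num)

theorem blk_NN3 : Stmt_NN3 := by
  intro m i hm hi hi2
  by_cases h10 : 10 ≤ i
  · have h10R : (10 : ℝ) ≤ i := by exact_mod_cast h10
    refine Nn_big (s := 84 / 10 * 3) h10 hi2 (by linarith) (by linarith) (by norm_num)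
      (SrR_big_pos h10 hi2 (by norm_num) (Or.inr (by norm_num))) ?_
    have h1 := Qi_le h10
    have h2 := Qi_pos h10
    nlinarith
  · push Not at h10
    interval_cases i
    · exact nn3_6_3 hm hi2
    · exact nn3_7_3 hm hi2
    · exact nn3_8_3 hm hi2
    · exact nn3_9_3 hm hi2

theorem blk_NN4 : Stmt_NN4 := by
  intro m i d hm hi hi2 hd hd2
  by_cases h10 : 10 ≤ i
  · have h10R : (10 : ℝ) ≤ i := by exact_mod_cast h10
    have hdR : (4 : ℝ) ≤ d := by exact_mod_cast hd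
    have hd2R : (d : ℝ) + 2 ≤ i := by exact_mod_cast hd2
    refine Nn_big (s := 84 / 10 * d) h10 hi2 (by linarith) (by linarith) (by linarith)
      (SrR_big_pos h10 hi2 (by linarith) (Or.inr (by linarith))) ?_
    have h1 := Qi_le h10
    have h2 := Qi_pos h10
    have h3 : Qi i * d ≤ Qi i * ((i : ℝ) - 1) := mul_le_mul_of_nonneg_left (by linarith) h2.le
    have h4 : 1 ≤ ((i : ℝ) - d) ^ 2 := by nlinarith
    nlinarith
  · push Not at h10
    interval_cases i
    · have hd3 : d ≤ 5 := by omega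
      interval_cases d
      · exact_mod_cast nn4_7_4 hm hi2
      · exact_mod_cast nn4_7_5 hm hi2
    · have hd3 : d ≤ 6 := by omega
      interval_cases d
      · exact_mod_cast nn4_8_4 hm hi2
      · exact_mod_cast nn4_8_5 hm hi2
      · exact_mod_cast nn4_8_6 hm hi2
    · have hd3 : d ≤ 7 := by omega
      interval_cases d
      · exact_mod_cast nn4_9_4 hm hi2
      · exact_mod_cast nn4_9_5 hm hi2
      · exact_mod_cast nn4_9_6 hm hi2
      · exact_mod_cast nn4_9_7 hm hi2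

theorem blk_NN5 : Stmt_NN5 := by
  intro m i d hm h10 hi2 hd
  have h10R : (10 : ℝ) ≤ i := by exact_mod_cast h10
  have hdR : (d : ℝ) + 1 = i := by exact_mod_cast hd
  refine Nn_big (s := 84 / 10 * d) h10 hi2 (by linarith) (by linarith) (by linarith)
    (SrR_big_pos h10 hi2 (by linarith) (Or.inr (by linarith))) ?_
  have h1 := Qi_le h10
  have h2 := Qi_pos h10
  have h3 : (i : ℝ) - 1 = d := by linarith
  rw [h3] at h1
  have h4 : (i : ℝ) - d = 1 := by linarith
  rw [h4]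
  linarith

theorem blk_NN6 : Stmt_NN6 := by
  intro m i e hm hi hi2 he
  by_cases h10 : 10 ≤ i
  · have h10R : (10 : ℝ) ≤ i := by exact_mod_cast h10
    have he0 : (0 : ℝ) ≤ e := Nat.cast_nonneg _
    have heR : (e : ℝ) + 4 ≤ i := by exact_mod_cast he
    refine Nn_big (s := 822 / 100 * e + 75 / 10) h10 hi2 (by linarith) (by linarith)
      (by linarith) (SrR_big_neg h10 hi2) ?_
    have h1 := Qi_le' h10
    have h2 := Qi_pos h10
    obtain ⟨P, hP⟩ : ∃ P : ℝ, P = (3 / 4 : ℝ) ^ (i - 4) := ⟨_, rfl⟩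
    have hP0 : 0 < P := by rw [hP]; positivity
    rw [← hP] at h1 ⊢
    have h3 : Qi i * (822 / 100 * (e : ℝ) + 75 / 10) ≤ 1 / 160 * P * (822 / 100 * (e : ℝ) + 75 / 10) :=
      mul_le_mul_of_nonneg_right h1 (by linarith)
    refine h3.trans ?_
    have h4 : 822 / 100 * (e : ℝ) + 75 / 10 ≤ 8 * ((i : ℝ) - -(e : ℝ)) ^ 2 := by nlinarith
    have h5 := mul_le_mul_of_nonneg_left h4 hP0.le
    nlinarith
  · push Not at h10
    interval_cases i
    · have he3 : e ≤ 2 := by omega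
      interval_cases e
      · simpa using (nn6_6_0 hm hi2).trans (by norm_num)
      · simpa using (nn6_6_1 hm hi2).trans (by norm_num)
      · simpa using (nn6_6_2 hm hi2).trans (by norm_num)
    · have he3 : e ≤ 3 := by omega
      interval_cases e
      · simpa using (nn6_7_0 hm hi2).trans (by norm_num)
      · simpa using (nn6_7_1 hm hi2).trans (by norm_num)
      · simpa using (nn6_7_2 hm hi2).trans (by norm_num)
      · simpa using (nn6_7_3 hm hi2).trans (by norm_num)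
    · have he3 : e ≤ 4 := by omega
      interval_cases e
      · simpa using (nn6_8_0 hm hi2).trans (by norm_num)
      · simpa using (nn6_8_1 hm hi2).trans (by norm_num)
      · simpa using (nn6_8_2 hm hi2).trans (by norm_num)
      · simpa using (nn6_8_3 hm hi2).trans (by norm_num)
      · simpa using (nn6_8_4 hm hi2).trans (by norm_num)
    · have he3 : e ≤ 5 := by omega
      interval_cases e
      · simpa using (nn6_9_0 hm hi2).trans (by norm_num)
      · simpa using (nn6_9_1 hm hi2).trans (by norm_num)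
      · simpa using (nn6_9_2 hm hi2).trans (by norm_num)
      · simpa using (nn6_9_3 hm hi2).trans (by norm_num)
      · simpa using (nn6_9_4 hm hi2).trans (by norm_num)
      · simpa using (nn6_9_5 hm hi2).trans (by norm_num)

theorem blk_NN7 : Stmt_NN7 := by
  intro m hm
  exact nn7_5_0 hm (by omega)

end Pool.JM
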