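import Pool.Agent.Work.MP_46fa68_62.NN

/-!
# MP_46fa68_co: NN1 - NN7, the cases `i ≤ 9` (generated)
-/

set_option autoImplicit false

open Finset

namespace Pool.JM

namespace N62

theorem nn1_4_1 {m : ℕ} (hm : 21 ≤ m) (h9 : 3 * 4 ≤ m + 6) : Nn m 4 1 ≤ 1 / 4 := by
  have h21 : (21 : ℝ) ≤ m := by exact_mod_cast hm
  refine Nn_le (s := 4377 / 1000) hm (by norm_num) h9 (by norm_num) (by push_cast; linarith) ?_ ?_
  · unfold S21
    norm_num
  · rw [PP_four (by omega)]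
    obtain ⟨t, ht⟩ : ∃ t : ℝ, (m : ℝ) = 21 + t := ⟨m - 21, by ring⟩
    have ht0 : 0 ≤ t := by linarith
    rw [ht]
    norm_num [Nat.factorial]
    rw [div_mul_eq_mul_div, div_le_iff₀ (by linarith)]
    nlinarith [pow_nonneg ht0 2, pow_nonneg ht0 3]


theorem nn1_5_1 {m : ℕ} (hm : 21 ≤ m) (h9 : 3 * 5 ≤ m + 6) : Nn m 5 1 ≤ 1 / 4 := by
  have h21 : (21 : ℝ) ≤ m := by exact_mod_cast hm
  refine Nn_le (s := 578 / 125) hm (by norm_num) h9 (by norm_num) (by push_cast; linarith) ?_ ?_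
  · unfold S21
    norm_num
  · rw [PP_five (by omega)]
    obtain ⟨t, ht⟩ : ∃ t : ℝ, (m : ℝ) = 21 + t := ⟨m - 21, by ring⟩
    have ht0 : 0 ≤ t := by linarith
    rw [ht]
    norm_num [Nat.factorial]
    nlinarith [pow_nonneg ht0 2]


theorem nn1_6_1 {m : ℕ} (hm : 21 ≤ m) (h9 : 3 * 6 ≤ m + 6) : Nn m 6 1 ≤ 1 / 4 := by
  have h21 : (21 : ℝ) ≤ m := by exact_mod_cast hm
  refine Nn_le (s := 5151 / 1000) hm (by norm_num) h9 (by norm_num) (by push_cast; linarith) ?_ ?_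
  · unfold S21
    norm_num
  · rw [PP_six (by omega)]
    obtain ⟨t, ht⟩ : ∃ t : ℝ, (m : ℝ) = 21 + t := ⟨m - 21, by ring⟩
    have ht0 : 0 ≤ t := by linarith
    rw [ht]
    norm_num [Nat.factorial]
    nlinarith [pow_nonneg ht0 2]


theorem nn1_7_1 {m : ℕ} (hm : 21 ≤ m) (h9 : 3 * 7 ≤ m + 6) : Nn m 7 1 ≤ 1 / 4 := by
  have h21 : (21 : ℝ) ≤ m := by exact_mod_cast hm
  refine Nn_le (s := 5719 / 1000) hm (by norm_num) h9 (by norm_num) (by push_cast; linarith) ?_ ?_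
  · unfold S21
    norm_num
  · rw [PP_seven (by omega)]
    obtain ⟨t, ht⟩ : ∃ t : ℝ, (m : ℝ) = 21 + t := ⟨m - 21, by ring⟩
    have ht0 : 0 ≤ t := by linarith
    rw [ht]
    norm_num [Nat.factorial]
    rw [div_mul_eq_mul_div, div_le_iff₀ (by linarith)]
    nlinarith [pow_nonneg ht0 2, pow_nonneg ht0 3]


theorem nn1_8_1 {m : ℕ} (hm : 21 ≤ m) (h9 : 3 * 8 ≤ m + 6) : Nn m 8 1 ≤ 1 / 4 := by
  have h21 : (21 : ℝ) ≤ m := by exact_mod_cast hm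
  refine Nn_le (s := 6333 / 1000) hm (by norm_num) h9 (by norm_num) (by push_cast; linarith) ?_ ?_
  · unfold S21
    norm_num
  · rw [PP_eight (by omega)]
    obtain ⟨t, ht⟩ : ∃ t : ℝ, (m : ℝ) = 21 + t := ⟨m - 21, by ring⟩
    have ht0 : 0 ≤ t := by linarith
    rw [ht]
    norm_num [Nat.factorial]
    rw [div_mul_eq_mul_div, div_le_iff₀ (by nlinarith)]
    nlinarith [pow_nonneg ht0 2, pow_nonneg ht0 3, pow_nonneg ht0 4]


theorem nn1_9_1 {m : ℕ} (hm : 21 ≤ m) (h9 : 3 * 9 ≤ m + 6) : Nn m 9 1 ≤ 1 / 4 := by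
  have h21 : (21 : ℝ) ≤ m := by exact_mod_cast hm
  refine Nn_le (s := 1749 / 250) hm (by norm_num) h9 (by norm_num) (by push_cast; linarith) ?_ ?_
  · unfold S21
    norm_num
  · rw [PP_nine (by omega)]
    obtain ⟨t, ht⟩ : ∃ t : ℝ, (m : ℝ) = 21 + t := ⟨m - 21, by ring⟩
    have ht0 : 0 ≤ t := by linarith
    rw [ht]
    norm_num [Nat.factorial]
    rw [div_mul_eq_mul_div, div_le_iff₀ (mul_pos (mul_pos (by linarith) (by linarith)) (by linarith))]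
    nlinarith [pow_nonneg ht0 2, pow_nonneg ht0 3, pow_nonneg ht0 4]


theorem nn2_6_2 {m : ℕ} (hm : 21 ≤ m) (h9 : 3 * 6 ≤ m + 6) : Nn m 6 2 ≤ 1 / 16 := by
  have h21 : (21 : ℝ) ≤ m := by exact_mod_cast hm
  refine Nn_le (s := 1528 / 125) hm (by norm_num) h9 (by norm_num) (by push_cast; linarith) ?_ ?_
  · unfold S21
    norm_num
  · rw [PP_six (by omega)]
    obtain ⟨t, ht⟩ : ∃ t : ℝ, (m : ℝ) = 21 + t := ⟨m - 21, by ring⟩
    have ht0 : 0 ≤ t := by linarith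
    rw [ht]
    norm_num [Nat.factorial]
    nlinarith [pow_nonneg ht0 2]


theorem nn2_7_2 {m : ℕ} (hm : 21 ≤ m) (h9 : 3 * 7 ≤ m + 6) : Nn m 7 2 ≤ 1 / 20 := by
  have h21 : (21 : ℝ) ≤ m := by exact_mod_cast hm
  refine Nn_le (s := 12931 / 1000) hm (by norm_num) h9 (by norm_num) (by push_cast; linarith) ?_ ?_
  · unfold S21
    norm_num
  · rw [PP_seven (by omega)]
    obtain ⟨t, ht⟩ : ∃ t : ℝ, (m : ℝ) = 21 + t := ⟨m - 21, by ring⟩
    have ht0 : 0 ≤ t := by linarith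
    rw [ht]
    norm_num [Nat.factorial]
    rw [div_mul_eq_mul_div, div_le_iff₀ (by linarith)]
    nlinarith [pow_nonneg ht0 2, pow_nonneg ht0 3]


theorem nn2_8_2 {m : ℕ} (hm : 21 ≤ m) (h9 : 3 * 8 ≤ m + 6) : Nn m 8 2 ≤ 1 / 24 := by
  have h21 : (21 : ℝ) ≤ m := by exact_mod_cast hm
  refine Nn_le (s := 13693 / 1000) hm (by norm_num) h9 (by norm_num) (by push_cast; linarith) ?_ ?_
  · unfold S21
    norm_num
  · rw [PP_eight (by omega)]
    obtain ⟨t, ht⟩ : ∃ t : ℝ, (m : ℝ) = 21 + t := ⟨m - 21, by ring⟩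
    have ht0 : 0 ≤ t := by linarith
    rw [ht]
    norm_num [Nat.factorial]
    rw [div_mul_eq_mul_div, div_le_iff₀ (by nlinarith)]
    nlinarith [pow_nonneg ht0 2, pow_nonneg ht0 3, pow_nonneg ht0 4]


theorem nn2_9_2 {m : ℕ} (hm : 21 ≤ m) (h9 : 3 * 9 ≤ m + 6) : Nn m 9 2 ≤ 1 / 28 := by
  have h21 : (21 : ℝ) ≤ m := by exact_mod_cast hm
  refine Nn_le (s := 2903 / 200) hm (by norm_num) h9 (by norm_num) (by push_cast; linarith) ?_ ?_
  · unfold S21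
    norm_num
  · rw [PP_nine (by omega)]
    obtain ⟨t, ht⟩ : ∃ t : ℝ, (m : ℝ) = 21 + t := ⟨m - 21, by ring⟩
    have ht0 : 0 ≤ t := by linarith
    rw [ht]
    norm_num [Nat.factorial]
    rw [div_mul_eq_mul_div, div_le_iff₀ (mul_pos (mul_pos (by linarith) (by linarith)) (by linarith))]
    nlinarith [pow_nonneg ht0 2, pow_nonneg ht0 3, pow_nonneg ht0 4]


theorem nn3_6_3 {m : ℕ} (hm : 21 ≤ m) (h9 : 3 * 6 ≤ m + 6) : Nn m 6 3 ≤ 1 / 8 := by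
  have h21 : (21 : ℝ) ≤ m := by exact_mod_cast hm
  refine Nn_le (s := 9689 / 500) hm (by norm_num) h9 (by norm_num) (by push_cast; linarith) ?_ ?_
  · unfold S21
    norm_num
  · rw [PP_six (by omega)]
    obtain ⟨t, ht⟩ : ∃ t : ℝ, (m : ℝ) = 21 + t := ⟨m - 21, by ring⟩
    have ht0 : 0 ≤ t := by linarith
    rw [ht]
    norm_num [Nat.factorial]
    nlinarith [pow_nonneg ht0 2]


theorem nn3_7_3 {m : ℕ} (hm : 21 ≤ m) (h9 : 3 * 7 ≤ m + 6) : Nn m 7 3 ≤ 1 / 8 := by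
  have h21 : (21 : ℝ) ≤ m := by exact_mod_cast hm
  refine Nn_le (s := 5077 / 250) hm (by norm_num) h9 (by norm_num) (by push_cast; linarith) ?_ ?_
  · unfold S21
    norm_num
  · rw [PP_seven (by omega)]
    obtain ⟨t, ht⟩ : ∃ t : ℝ, (m : ℝ) = 21 + t := ⟨m - 21, by ring⟩
    have ht0 : 0 ≤ t := by linarith
    rw [ht]
    norm_num [Nat.factorial]
    rw [div_mul_eq_mul_div, div_le_iff₀ (by linarith)]
    nlinarith [pow_nonneg ht0 2, pow_nonneg ht0 3]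


theorem nn3_8_3 {m : ℕ} (hm : 21 ≤ m) (h9 : 3 * 8 ≤ m + 6) : Nn m 8 3 ≤ 1 / 8 := by
  have h21 : (21 : ℝ) ≤ m := by exact_mod_cast hm
  refine Nn_le (s := 21307 / 1000) hm (by norm_num) h9 (by norm_num) (by push_cast; linarith) ?_ ?_
  · unfold S21
    norm_num
  · rw [PP_eight (by omega)]
    obtain ⟨t, ht⟩ : ∃ t : ℝ, (m : ℝ) = 21 + t := ⟨m - 21, by ring⟩
    have ht0 : 0 ≤ t := by linarith
    rw [ht]
    norm_num [Nat.factorial]
    rw [div_mul_eq_mul_div, div_le_iff₀ (by nlinarith)]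
    nlinarith [pow_nonneg ht0 2, pow_nonneg ht0 3, pow_nonneg ht0 4]


theorem nn3_9_3 {m : ℕ} (hm : 21 ≤ m) (h9 : 3 * 9 ≤ m + 6) : Nn m 9 3 ≤ 1 / 8 := by
  have h21 : (21 : ℝ) ≤ m := by exact_mod_cast hm
  refine Nn_le (s := 22383 / 1000) hm (by norm_num) h9 (by norm_num) (by push_cast; linarith) ?_ ?_
  · unfold S21
    norm_num
  · rw [PP_nine (by omega)]
    obtain ⟨t, ht⟩ : ∃ t : ℝ, (m : ℝ) = 21 + t := ⟨m - 21, by ring⟩
    have ht0 : 0 ≤ t := by linarith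
    rw [ht]
    norm_num [Nat.factorial]
    rw [div_mul_eq_mul_div, div_le_iff₀ (mul_pos (mul_pos (by linarith) (by linarith)) (by linarith))]
    nlinarith [pow_nonneg ht0 2, pow_nonneg ht0 3, pow_nonneg ht0 4]


theorem nn4_7_4 {m : ℕ} (hm : 21 ≤ m) (h9 : 3 * 7 ≤ m + 6) : Nn m 7 4 ≤ 1 / 10 := by
  have h21 : (21 : ℝ) ≤ m := by exact_mod_cast hm
  refine Nn_le (s := 6921 / 250) hm (by norm_num) h9 (by norm_num) (by push_cast; linarith) ?_ ?_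
  · unfold S21
    norm_num
  · rw [PP_seven (by omega)]
    obtain ⟨t, ht⟩ : ∃ t : ℝ, (m : ℝ) = 21 + t := ⟨m - 21, by ring⟩
    have ht0 : 0 ≤ t := by linarith
    rw [ht]
    norm_num [Nat.factorial]
    rw [div_mul_eq_mul_div, div_le_iff₀ (by linarith)]
    nlinarith [pow_nonneg ht0 2, pow_nonneg ht0 3]


theorem nn4_7_5 {m : ℕ} (hm : 21 ≤ m) (h9 : 3 * 7 ≤ m + 6) : Nn m 7 5 ≤ 1 / 10 := by
  have h21 : (21 : ℝ) ≤ m := by exact_mod_cast hm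
  refine Nn_le (s := 35061 / 1000) hm (by norm_num) h9 (by norm_num) (by push_cast; linarith) ?_ ?_
  · unfold S21
    norm_num
  · rw [PP_seven (by omega)]
    obtain ⟨t, ht⟩ : ∃ t : ℝ, (m : ℝ) = 21 + t := ⟨m - 21, by ring⟩
    have ht0 : 0 ≤ t := by linarith
    rw [ht]
    norm_num [Nat.factorial]
    rw [div_mul_eq_mul_div, div_le_iff₀ (by linarith)]
    nlinarith [pow_nonneg ht0 2, pow_nonneg ht0 3]


theorem nn4_8_4 {m : ℕ} (hm : 21 ≤ m) (h9 : 3 * 8 ≤ m + 6) : Nn m 8 4 ≤ 1 / 10 := by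
  have h21 : (21 : ℝ) ≤ m := by exact_mod_cast hm
  refine Nn_le (s := 14461 / 500) hm (by norm_num) h9 (by norm_num) (by push_cast; linarith) ?_ ?_
  · unfold S21
    norm_num
  · rw [PP_eight (by omega)]
    obtain ⟨t, ht⟩ : ∃ t : ℝ, (m : ℝ) = 21 + t := ⟨m - 21, by ring⟩
    have ht0 : 0 ≤ t := by linarith
    rw [ht]
    norm_num [Nat.factorial]
    rw [div_mul_eq_mul_div, div_le_iff₀ (by nlinarith)]
    nlinarith [pow_nonneg ht0 2, pow_nonneg ht0 3, pow_nonneg ht0 4]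


theorem nn4_8_5 {m : ℕ} (hm : 21 ≤ m) (h9 : 3 * 8 ≤ m + 6) : Nn m 8 5 ≤ 1 / 10 := by
  have h21 : (21 : ℝ) ≤ m := by exact_mod_cast hm
  refine Nn_le (s := 36537 / 1000) hm (by norm_num) h9 (by norm_num) (by push_cast; linarith) ?_ ?_
  · unfold S21
    norm_num
  · rw [PP_eight (by omega)]
    obtain ⟨t, ht⟩ : ∃ t : ℝ, (m : ℝ) = 21 + t := ⟨m - 21, by ring⟩
    have ht0 : 0 ≤ t := by linarith
    rw [ht]
    norm_num [Nat.factorial]
    rw [div_mul_eq_mul_div, div_le_iff₀ (by nlinarith)]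
    nlinarith [pow_nonneg ht0 2, pow_nonneg ht0 3, pow_nonneg ht0 4]


theorem nn4_8_6 {m : ℕ} (hm : 21 ≤ m) (h9 : 3 * 8 ≤ m + 6) : Nn m 8 6 ≤ 1 / 10 := by
  have h21 : (21 : ℝ) ≤ m := by exact_mod_cast hm
  refine Nn_le (s := 44151 / 1000) hm (by norm_num) h9 (by norm_num) (by push_cast; linarith) ?_ ?_
  · unfold S21
    norm_num
  · rw [PP_eight (by omega)]
    obtain ⟨t, ht⟩ : ∃ t : ℝ, (m : ℝ) = 21 + t := ⟨m - 21, by ring⟩
    have ht0 : 0 ≤ t := by linarith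
    rw [ht]
    norm_num [Nat.factorial]
    rw [div_mul_eq_mul_div, div_le_iff₀ (by nlinarith)]
    nlinarith [pow_nonneg ht0 2, pow_nonneg ht0 3, pow_nonneg ht0 4]


theorem nn4_9_4 {m : ℕ} (hm : 21 ≤ m) (h9 : 3 * 9 ≤ m + 6) : Nn m 9 4 ≤ 1 / 10 := by
  have h21 : (21 : ℝ) ≤ m := by exact_mod_cast hm
  refine Nn_le (s := 7563 / 250) hm (by norm_num) h9 (by norm_num) (by push_cast; linarith) ?_ ?_
  · unfold S21
    norm_num
  · rw [PP_nine (by omega)]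
    obtain ⟨t, ht⟩ : ∃ t : ℝ, (m : ℝ) = 21 + t := ⟨m - 21, by ring⟩
    have ht0 : 0 ≤ t := by linarith
    rw [ht]
    norm_num [Nat.factorial]
    rw [div_mul_eq_mul_div, div_le_iff₀ (mul_pos (mul_pos (by linarith) (by linarith)) (by linarith))]
    nlinarith [pow_nonneg ht0 2, pow_nonneg ht0 3, pow_nonneg ht0 4]


theorem nn4_9_5 {m : ℕ} (hm : 21 ≤ m) (h9 : 3 * 9 ≤ m + 6) : Nn m 9 5 ≤ 1 / 10 := by
  have h21 : (21 : ℝ) ≤ m := by exact_mod_cast hm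
  refine Nn_le (s := 38121 / 1000) hm (by norm_num) h9 (by norm_num) (by push_cast; linarith) ?_ ?_
  · unfold S21
    norm_num
  · rw [PP_nine (by omega)]
    obtain ⟨t, ht⟩ : ∃ t : ℝ, (m : ℝ) = 21 + t := ⟨m - 21, by ring⟩
    have ht0 : 0 ≤ t := by linarith
    rw [ht]
    norm_num [Nat.factorial]
    rw [div_mul_eq_mul_div, div_le_iff₀ (mul_pos (mul_pos (by linarith) (by linarith)) (by linarith))]
    nlinarith [pow_nonneg ht0 2, pow_nonneg ht0 3, pow_nonneg ht0 4]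


theorem nn4_9_6 {m : ℕ} (hm : 21 ≤ m) (h9 : 3 * 9 ≤ m + 6) : Nn m 9 6 ≤ 1 / 10 := by
  have h21 : (21 : ℝ) ≤ m := by exact_mod_cast hm
  refine Nn_le (s := 45989 / 1000) hm (by norm_num) h9 (by norm_num) (by push_cast; linarith) ?_ ?_
  · unfold S21
    norm_num
  · rw [PP_nine (by omega)]
    obtain ⟨t, ht⟩ : ∃ t : ℝ, (m : ℝ) = 21 + t := ⟨m - 21, by ring⟩
    have ht0 : 0 ≤ t := by linarith
    rw [ht]
    norm_num [Nat.factorial]
    rw [div_mul_eq_mul_div, div_le_iff₀ (mul_pos (mul_pos (by linarith) (by linarith)) (by linarith))]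
    nlinarith [pow_nonneg ht0 2, pow_nonneg ht0 3, pow_nonneg ht0 4]


theorem nn4_9_7 {m : ℕ} (hm : 21 ≤ m) (h9 : 3 * 9 ≤ m + 6) : Nn m 9 7 ≤ 1 / 10 := by
  have h21 : (21 : ℝ) ≤ m := by exact_mod_cast hm
  refine Nn_le (s := 26929 / 500) hm (by norm_num) h9 (by norm_num) (by push_cast; linarith) ?_ ?_
  · unfold S21
    norm_num
  · rw [PP_nine (by omega)]
    obtain ⟨t, ht⟩ : ∃ t : ℝ, (m : ℝ) = 21 + t := ⟨m - 21, by ring⟩
    have ht0 : 0 ≤ t := by linarith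
    rw [ht]
    norm_num [Nat.factorial]
    rw [div_mul_eq_mul_div, div_le_iff₀ (mul_pos (mul_pos (by linarith) (by linarith)) (by linarith))]
    nlinarith [pow_nonneg ht0 2, pow_nonneg ht0 3, pow_nonneg ht0 4]


theorem nn6_6_0 {m : ℕ} (hm : 21 ≤ m) (h9 : 3 * 6 ≤ m + 6) : Nn m 6 0 ≤ 9 / 320 := by
  have h21 : (21 : ℝ) ≤ m := by exact_mod_cast hm
  refine Nn_le (s := 971 / 200) hm (by norm_num) h9 (by norm_num) (by push_cast; linarith) ?_ ?_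
  · unfold S21
    norm_num
  · rw [PP_six (by omega)]
    obtain ⟨t, ht⟩ : ∃ t : ℝ, (m : ℝ) = 21 + t := ⟨m - 21, by ring⟩
    have ht0 : 0 ≤ t := by linarith
    rw [ht]
    norm_num [Nat.factorial]
    nlinarith [pow_nonneg ht0 2]


theorem nn6_6_1 {m : ℕ} (hm : 21 ≤ m) (h9 : 3 * 6 ≤ m + 6) : Nn m 6 (-1) ≤ 9 / 320 := by
  have h21 : (21 : ℝ) ≤ m := by exact_mod_cast hm
  refine Nn_le (s := 1491 / 125) hm (by norm_num) h9 (by norm_num) (by push_cast; linarith) ?_ ?_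
  · unfold S21
    norm_num
  · rw [PP_six (by omega)]
    obtain ⟨t, ht⟩ : ∃ t : ℝ, (m : ℝ) = 21 + t := ⟨m - 21, by ring⟩
    have ht0 : 0 ≤ t := by linarith
    rw [ht]
    norm_num [Nat.factorial]
    nlinarith [pow_nonneg ht0 2]


theorem nn6_6_2 {m : ℕ} (hm : 21 ≤ m) (h9 : 3 * 6 ≤ m + 6) : Nn m 6 (-2) ≤ 9 / 320 := by
  have h21 : (21 : ℝ) ≤ m := by exact_mod_cast hm
  refine Nn_le (s := 9501 / 500) hm (by norm_num) h9 (by norm_num) (by push_cast; linarith) ?_ ?_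
  · unfold S21
    norm_num
  · rw [PP_six (by omega)]
    obtain ⟨t, ht⟩ : ∃ t : ℝ, (m : ℝ) = 21 + t := ⟨m - 21, by ring⟩
    have ht0 : 0 ≤ t := by linarith
    rw [ht]
    norm_num [Nat.factorial]
    nlinarith [pow_nonneg ht0 2]


theorem nn6_7_0 {m : ℕ} (hm : 21 ≤ m) (h9 : 3 * 7 ≤ m + 6) : Nn m 7 0 ≤ 27 / 1280 := by
  have h21 : (21 : ℝ) ≤ m := by exact_mod_cast hm
  refine Nn_le (s := 1057 / 200) hm (by norm_num) h9 (by norm_num) (by push_cast; linarith) ?_ ?_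
  · unfold S21
    norm_num
  · rw [PP_seven (by omega)]
    obtain ⟨t, ht⟩ : ∃ t : ℝ, (m : ℝ) = 21 + t := ⟨m - 21, by ring⟩
    have ht0 : 0 ≤ t := by linarith
    rw [ht]
    norm_num [Nat.factorial]
    rw [div_mul_eq_mul_div, div_le_iff₀ (by linarith)]
    nlinarith [pow_nonneg ht0 2, pow_nonneg ht0 3]


theorem nn6_7_1 {m : ℕ} (hm : 21 ≤ m) (h9 : 3 * 7 ≤ m + 6) : Nn m 7 (-1) ≤ 27 / 1280 := by
  have h21 : (21 : ℝ) ≤ m := by exact_mod_cast hm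
  refine Nn_le (s := 12497 / 1000) hm (by norm_num) h9 (by norm_num) (by push_cast; linarith) ?_ ?_
  · unfold S21
    norm_num
  · rw [PP_seven (by omega)]
    obtain ⟨t, ht⟩ : ∃ t : ℝ, (m : ℝ) = 21 + t := ⟨m - 21, by ring⟩
    have ht0 : 0 ≤ t := by linarith
    rw [ht]
    norm_num [Nat.factorial]
    rw [div_mul_eq_mul_div, div_le_iff₀ (by linarith)]
    nlinarith [pow_nonneg ht0 2, pow_nonneg ht0 3]


theorem nn6_7_2 {m : ℕ} (hm : 21 ≤ m) (h9 : 3 * 7 ≤ m + 6) : Nn m 7 (-2) ≤ 27 / 1280 := by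
  have h21 : (21 : ℝ) ≤ m := by exact_mod_cast hm
  refine Nn_le (s := 4927 / 250) hm (by norm_num) h9 (by norm_num) (by push_cast; linarith) ?_ ?_
  · unfold S21
    norm_num
  · rw [PP_seven (by omega)]
    obtain ⟨t, ht⟩ : ∃ t : ℝ, (m : ℝ) = 21 + t := ⟨m - 21, by ring⟩
    have ht0 : 0 ≤ t := by linarith
    rw [ht]
    norm_num [Nat.factorial]
    rw [div_mul_eq_mul_div, div_le_iff₀ (by linarith)]
    nlinarith [pow_nonneg ht0 2, pow_nonneg ht0 3]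


theorem nn6_7_3 {m : ℕ} (hm : 21 ≤ m) (h9 : 3 * 7 ≤ m + 6) : Nn m 7 (-3) ≤ 27 / 1280 := by
  have h21 : (21 : ℝ) ≤ m := by exact_mod_cast hm
  refine Nn_le (s := 5417 / 200) hm (by norm_num) h9 (by norm_num) (by push_cast; linarith) ?_ ?_
  · unfold S21
    norm_num
  · rw [PP_seven (by omega)]
    obtain ⟨t, ht⟩ : ∃ t : ℝ, (m : ℝ) = 21 + t := ⟨m - 21, by ring⟩
    have ht0 : 0 ≤ t := by linarith
    rw [ht]
    norm_num [Nat.factorial]
    rw [div_mul_eq_mul_div, div_le_iff₀ (by linarith)]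
    nlinarith [pow_nonneg ht0 2, pow_nonneg ht0 3]


theorem nn6_8_0 {m : ℕ} (hm : 21 ≤ m) (h9 : 3 * 8 ≤ m + 6) : Nn m 8 0 ≤ 81 / 5120 := by
  have h21 : (21 : ℝ) ≤ m := by exact_mod_cast hm
  refine Nn_le (s := 5751 / 1000) hm (by norm_num) h9 (by norm_num) (by push_cast; linarith) ?_ ?_
  · unfold S21
    norm_num
  · rw [PP_eight (by omega)]
    obtain ⟨t, ht⟩ : ∃ t : ℝ, (m : ℝ) = 21 + t := ⟨m - 21, by ring⟩
    have ht0 : 0 ≤ t := by linarith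
    rw [ht]
    norm_num [Nat.factorial]
    rw [div_mul_eq_mul_div, div_le_iff₀ (by nlinarith)]
    nlinarith [pow_nonneg ht0 2, pow_nonneg ht0 3, pow_nonneg ht0 4]


theorem nn6_8_1 {m : ℕ} (hm : 21 ≤ m) (h9 : 3 * 8 ≤ m + 6) : Nn m 8 (-1) ≤ 81 / 5120 := by
  have h21 : (21 : ℝ) ≤ m := by exact_mod_cast hm
  refine Nn_le (s := 13111 / 1000) hm (by norm_num) h9 (by norm_num) (by push_cast; linarith) ?_ ?_
  · unfold S21
    norm_num
  · rw [PP_eight (by omega)]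
    obtain ⟨t, ht⟩ : ∃ t : ℝ, (m : ℝ) = 21 + t := ⟨m - 21, by ring⟩
    have ht0 : 0 ≤ t := by linarith
    rw [ht]
    norm_num [Nat.factorial]
    rw [div_mul_eq_mul_div, div_le_iff₀ (by nlinarith)]
    nlinarith [pow_nonneg ht0 2, pow_nonneg ht0 3, pow_nonneg ht0 4]


theorem nn6_8_2 {m : ℕ} (hm : 21 ≤ m) (h9 : 3 * 8 ≤ m + 6) : Nn m 8 (-2) ≤ 81 / 5120 := by
  have h21 : (21 : ℝ) ≤ m := by exact_mod_cast hm
  refine Nn_le (s := 2047 / 100) hm (by norm_num) h9 (by norm_num) (by push_cast; linarith) ?_ ?_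
  · unfold S21
    norm_num
  · rw [PP_eight (by omega)]
    obtain ⟨t, ht⟩ : ∃ t : ℝ, (m : ℝ) = 21 + t := ⟨m - 21, by ring⟩
    have ht0 : 0 ≤ t := by linarith
    rw [ht]
    norm_num [Nat.factorial]
    rw [div_mul_eq_mul_div, div_le_iff₀ (by nlinarith)]
    nlinarith [pow_nonneg ht0 2, pow_nonneg ht0 3, pow_nonneg ht0 4]


theorem nn6_8_3 {m : ℕ} (hm : 21 ≤ m) (h9 : 3 * 8 ≤ m + 6) : Nn m 8 (-3) ≤ 81 / 5120 := by
  have h21 : (21 : ℝ) ≤ m := by exact_mod_cast hm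
  refine Nn_le (s := 5617 / 200) hm (by norm_num) h9 (by norm_num) (by push_cast; linarith) ?_ ?_
  · unfold S21
    norm_num
  · rw [PP_eight (by omega)]
    obtain ⟨t, ht⟩ : ∃ t : ℝ, (m : ℝ) = 21 + t := ⟨m - 21, by ring⟩
    have ht0 : 0 ≤ t := by linarith
    rw [ht]
    norm_num [Nat.factorial]
    rw [div_mul_eq_mul_div, div_le_iff₀ (by nlinarith)]
    nlinarith [pow_nonneg ht0 2, pow_nonneg ht0 3, pow_nonneg ht0 4]


theorem nn6_8_4 {m : ℕ} (hm : 21 ≤ m) (h9 : 3 * 8 ≤ m + 6) : Nn m 8 (-4) ≤ 81 / 5120 := by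
  have h21 : (21 : ℝ) ≤ m := by exact_mod_cast hm
  refine Nn_le (s := 357 / 10) hm (by norm_num) h9 (by norm_num) (by push_cast; linarith) ?_ ?_
  · unfold S21
    norm_num
  · rw [PP_eight (by omega)]
    obtain ⟨t, ht⟩ : ∃ t : ℝ, (m : ℝ) = 21 + t := ⟨m - 21, by ring⟩
    have ht0 : 0 ≤ t := by linarith
    rw [ht]
    norm_num [Nat.factorial]
    rw [div_mul_eq_mul_div, div_le_iff₀ (by nlinarith)]
    nlinarith [pow_nonneg ht0 2, pow_nonneg ht0 3, pow_nonneg ht0 4]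


theorem nn6_9_0 {m : ℕ} (hm : 21 ≤ m) (h9 : 3 * 9 ≤ m + 6) : Nn m 9 0 ≤ 243 / 20480 := by
  have h21 : (21 : ℝ) ≤ m := by exact_mod_cast hm
  refine Nn_le (s := 1251 / 200) hm (by norm_num) h9 (by norm_num) (by push_cast; linarith) ?_ ?_
  · unfold S21
    norm_num
  · rw [PP_nine (by omega)]
    obtain ⟨t, ht⟩ : ∃ t : ℝ, (m : ℝ) = 21 + t := ⟨m - 21, by ring⟩
    have ht0 : 0 ≤ t := by linarith
    rw [ht]
    norm_num [Nat.factorial]
    rw [div_mul_eq_mul_div, div_le_iff₀ (mul_pos (mul_pos (by linarith) (by linarith)) (by linarith))]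
    nlinarith [pow_nonneg ht0 2, pow_nonneg ht0 3, pow_nonneg ht0 4]


theorem nn6_9_1 {m : ℕ} (hm : 21 ≤ m) (h9 : 3 * 9 ≤ m + 6) : Nn m 9 (-1) ≤ 243 / 20480 := by
  have h21 : (21 : ℝ) ≤ m := by exact_mod_cast hm
  refine Nn_le (s := 6887 / 500) hm (by norm_num) h9 (by norm_num) (by push_cast; linarith) ?_ ?_
  · unfold S21
    norm_num
  · rw [PP_nine (by omega)]
    obtain ⟨t, ht⟩ : ∃ t : ℝ, (m : ℝ) = 21 + t := ⟨m - 21, by ring⟩
    have ht0 : 0 ≤ t := by linarith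
    rw [ht]
    norm_num [Nat.factorial]
    rw [div_mul_eq_mul_div, div_le_iff₀ (mul_pos (mul_pos (by linarith) (by linarith)) (by linarith))]
    nlinarith [pow_nonneg ht0 2, pow_nonneg ht0 3, pow_nonneg ht0 4]


theorem nn6_9_2 {m : ℕ} (hm : 21 ≤ m) (h9 : 3 * 9 ≤ m + 6) : Nn m 9 (-2) ≤ 243 / 20480 := by
  have h21 : (21 : ℝ) ≤ m := by exact_mod_cast hm
  refine Nn_le (s := 5323 / 250) hm (by norm_num) h9 (by norm_num) (by push_cast; linarith) ?_ ?_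
  · unfold S21
    norm_num
  · rw [PP_nine (by omega)]
    obtain ⟨t, ht⟩ : ∃ t : ℝ, (m : ℝ) = 21 + t := ⟨m - 21, by ring⟩
    have ht0 : 0 ≤ t := by linarith
    rw [ht]
    norm_num [Nat.factorial]
    rw [div_mul_eq_mul_div, div_le_iff₀ (mul_pos (mul_pos (by linarith) (by linarith)) (by linarith))]
    nlinarith [pow_nonneg ht0 2, pow_nonneg ht0 3, pow_nonneg ht0 4]


theorem nn6_9_3 {m : ℕ} (hm : 21 ≤ m) (h9 : 3 * 9 ≤ m + 6) : Nn m 9 (-3) ≤ 243 / 20480 := by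
  have h21 : (21 : ℝ) ≤ m := by exact_mod_cast hm
  refine Nn_le (s := 29161 / 1000) hm (by norm_num) h9 (by norm_num) (by push_cast; linarith) ?_ ?_
  · unfold S21
    norm_num
  · rw [PP_nine (by omega)]
    obtain ⟨t, ht⟩ : ∃ t : ℝ, (m : ℝ) = 21 + t := ⟨m - 21, by ring⟩
    have ht0 : 0 ≤ t := by linarith
    rw [ht]
    norm_num [Nat.factorial]
    rw [div_mul_eq_mul_div, div_le_iff₀ (mul_pos (mul_pos (by linarith) (by linarith)) (by linarith))]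
    nlinarith [pow_nonneg ht0 2, pow_nonneg ht0 3, pow_nonneg ht0 4]


theorem nn6_9_4 {m : ℕ} (hm : 21 ≤ m) (h9 : 3 * 9 ≤ m + 6) : Nn m 9 (-4) ≤ 243 / 20480 := by
  have h21 : (21 : ℝ) ≤ m := by exact_mod_cast hm
  refine Nn_le (s := 3703 / 100) hm (by norm_num) h9 (by norm_num) (by push_cast; linarith) ?_ ?_
  · unfold S21
    norm_num
  · rw [PP_nine (by omega)]
    obtain ⟨t, ht⟩ : ∃ t : ℝ, (m : ℝ) = 21 + t := ⟨m - 21, by ring⟩
    have ht0 : 0 ≤ t := by linarith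
    rw [ht]
    norm_num [Nat.factorial]
    rw [div_mul_eq_mul_div, div_le_iff₀ (mul_pos (mul_pos (by linarith) (by linarith)) (by linarith))]
    nlinarith [pow_nonneg ht0 2, pow_nonneg ht0 3, pow_nonneg ht0 4]


theorem nn6_9_5 {m : ℕ} (hm : 21 ≤ m) (h9 : 3 * 9 ≤ m + 6) : Nn m 9 (-5) ≤ 243 / 20480 := by
  have h21 : (21 : ℝ) ≤ m := by exact_mod_cast hm
  refine Nn_le (s := 22449 / 500) hm (by norm_num) h9 (by norm_num) (by push_cast; linarith) ?_ ?_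
  · unfold S21
    norm_num
  · rw [PP_nine (by omega)]
    obtain ⟨t, ht⟩ : ∃ t : ℝ, (m : ℝ) = 21 + t := ⟨m - 21, by ring⟩
    have ht0 : 0 ≤ t := by linarith
    rw [ht]
    norm_num [Nat.factorial]
    rw [div_mul_eq_mul_div, div_le_iff₀ (mul_pos (mul_pos (by linarith) (by linarith)) (by linarith))]
    nlinarith [pow_nonneg ht0 2, pow_nonneg ht0 3, pow_nonneg ht0 4]


theorem nn7_5_0 {m : ℕ} (hm : 21 ≤ m) (h9 : 3 * 5 ≤ m + 6) : Nn m 5 0 ≤ 1 / 25 := by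
  have h21 : (21 : ℝ) ≤ m := by exact_mod_cast hm
  refine Nn_le (s := 44559 / 10000) hm (by norm_num) h9 (by norm_num) (by push_cast; linarith) ?_ ?_
  · unfold S21
    norm_num
  · rw [PP_five (by omega)]
    obtain ⟨t, ht⟩ : ∃ t : ℝ, (m : ℝ) = 21 + t := ⟨m - 21, by ring⟩
    have ht0 : 0 ≤ t := by linarith
    rw [ht]
    norm_num [Nat.factorial]
    nlinarith [pow_nonneg ht0 2]

end N62

end Pool.JM
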