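import Pool.Agent.Work.MP_46fa68_56.RDefs19
import Pool.Agent.Work.MP_46fa68_62.NR19

/-!
# MP_46fa68_co: block NR3
-/

set_option autoImplicit false

open Finset

namespace Pool.JM.LR

namespace N62

noncomputable def TC (m i : ℕ) : ℝ := 73 / 100 / (i : ℝ) + 51 / 50 / ((m : ℝ) - 3 + i)

noncomputable def GC (m i : ℕ) : ℝ :=
  cA m i * TC m i * (((m : ℝ) - i + 1) * (4 / 3) ^ (2 * i - 3))

theorem GC_step (hC : Stmt_CF) {m i : ℕ} (hm : 19 ≤ m) (hi : 4 ≤ i) (hi2 : i + 9 ≤ m) :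
    GC m (i + 1) ≤ GC m i := by
  have h19 := c19 hm
  have h4 : (4 : ℝ) ≤ i := by exact_mod_cast hi
  have h9 : (i : ℝ) + 9 ≤ m := by exact_mod_cast hi2
  obtain ⟨_, _, _, _, _, hA, _, _, _, hpos⟩ := hC m (by omega)
  have a1 := hA i (by omega) (by omega)
  have p0 := hpos i (by omega)
  have p1 := hpos (i + 1) (by omega)
  unfold GC
  rw [show 2 * (i + 1) - 3 = (2 * i - 3) + 2 by omega, pow_add]
  have t1 : TC m (i + 1) ≤ TC m i := by
    unfold TC
    push_cast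
    have h1 : 51 / 50 / ((m : ℝ) - 3 + (i + 1)) ≤ 51 / 50 / ((m : ℝ) - 3 + i) := by
      apply div_le_div_of_nonneg_left (by norm_num) (by linarith) (by linarith)
    have h2 : 73 / 100 / ((i : ℝ) + 1) ≤ 73 / 100 / (i : ℝ) := by
      apply div_le_div_of_nonneg_left (by norm_num) (by linarith) (by linarith)
    linarith
  have t0 : 0 ≤ TC m (i + 1) := by
    unfold TC
    push_cast
    have h1 : 0 ≤ 51 / 50 / ((m : ℝ) - 3 + (i + 1)) := div_nonneg (by norm_num) (by linarith)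
    have h2 : 0 ≤ 73 / 100 / ((i : ℝ) + 1) := div_nonneg (by norm_num) (by linarith)
    linarith
  push_cast
  obtain ⟨P, hP⟩ : ∃ P : ℝ, P = (4 / 3 : ℝ) ^ (2 * i - 3) := ⟨_, rfl⟩
  have hP0 : 0 < P := by rw [hP]; positivity
  rw [← hP]
  have key : cA m (i + 1) * ((((m : ℝ) - (i + 1)) + 1) * (4 / 3) ^ 2) ≤
      cA m i * (((m : ℝ) - i) + 1) := by
    have e : cA m (i + 1) = cA m i * ((m : ℝ) - 2 + i) / (i * ((m : ℝ) - i)) := by
      rw [eq_div_iff (by apply ne_of_gt; apply mul_pos <;> linarith)]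
      exact a1
    rw [e]
    have e2 : cA m i * ((m : ℝ) - 2 + i) / (i * ((m : ℝ) - i)) *
        ((((m : ℝ) - (i + 1)) + 1) * (4 / 3) ^ 2) =
        cA m i * (16 / 9 * ((m : ℝ) - 2 + i) / i) := by
      have : (m : ℝ) - i ≠ 0 := by linarith
      have : (i : ℝ) ≠ 0 := by linarith
      field_simp
      ring
    rw [e2]
    apply mul_le_mul_of_nonneg_left _ p0.le
    rw [div_le_iff₀ (by linarith)]
    nlinarith [mul_nonneg (by linarith : (0 : ℝ) ≤ (i : ℝ) - 4) (by linarith : (0 : ℝ) ≤ (m : ℝ) - 9 - i)]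
  calc cA m (i + 1) * TC m (i + 1) * (((m : ℝ) - (i + 1) + 1) * (P * (4 / 3) ^ 2))
      = (cA m (i + 1) * ((((m : ℝ) - (i + 1)) + 1) * (4 / 3) ^ 2)) * (TC m (i + 1) * P) := by ring
    _ ≤ (cA m i * (((m : ℝ) - i) + 1)) * (TC m i * P) :=
        mul_le_mul key (mul_le_mul_of_nonneg_right t1 hP0.le) (mul_nonneg t0 hP0.le)
          (mul_nonneg p0.le (by linarith))
    _ = _ := by ring

theorem GC_four (hC : Stmt_CF) {m : ℕ} (hm : 19 ≤ m) : GC m 4 ≤ 175 / 1000 := by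
  have h19 := c19 hm
  obtain ⟨_, _, h3, _, _, hA, _, _, _, _⟩ := hC m (by omega)
  have a1 := hA 3 (by omega) (by omega)
  have e : cA m 4 = ((m : ℝ) + 1) / (6 * m * ((m : ℝ) - 3)) := by
    rw [h3] at a1
    norm_num at a1
    rw [eq_div_iff (by apply ne_of_gt; apply mul_pos <;> linarith)]
    have h0 : (m : ℝ) ≠ 0 := by linarith
    have : cA m 4 * (6 * (m : ℝ) * ((m : ℝ) - 3)) = (cA m 4 * (3 * ((m : ℝ) - 3))) * (2 * m) := by ring
    rw [this, a1]
    field_simp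
    ring
  unfold GC TC
  rw [e]
  have h3 : (0 : ℝ) < (m : ℝ) - 3 := by linarith
  have h0 : (0 : ℝ) < m := by linarith
  have h1 : (0 : ℝ) < (m : ℝ) + 1 := by linarith
  have e2 : ((m : ℝ) + 1) / (6 * m * ((m : ℝ) - 3)) *
      (73 / 100 / ((4 : ℕ) : ℝ) + 51 / 50 / ((m : ℝ) - 3 + ((4 : ℕ) : ℝ))) *
      (((m : ℝ) - (4 : ℕ) + 1) * (4 / 3) ^ (2 * 4 - 3)) =
      (1024 / 243) * (73 / 400 * ((m : ℝ) + 1) + 51 / 50) / (6 * m) := by
    push_cast
    have : (m : ℝ) - 4 + 1 = m - 3 := by ring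
    rw [this]
    have : (m : ℝ) - 3 + 4 = m + 1 := by ring
    rw [this]
    norm_num
    field_simp
  rw [e2, div_le_iff₀ (by positivity)]
  linarith

end N62

open N62

theorem blk_NR3 (hC : Stmt_CF) : Stmt_NR3 := by
  intro m hm
  refine ⟨nr_d3 hC hm, nr_d3col hC hm, fun i hi hi2 => ?_⟩
  change GC m i ≤ 175 / 1000
  induction i, hi using Nat.le_induction with
  | base => exact GC_four hC hm
  | succ i hi ih => exact (GC_step hC hm hi (by omega)).trans (ih (by omega))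

end Pool.JM.LR
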